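import Mathlib

/-!
# Regions given by bilinear inequalities
-/

set_option autoImplicit false

namespace Q54.KZ

open MeasureTheory

/-- The number one and the coordinates of `x`. -/
def ex {α : Type} (x : α → ℝ) : Option α → ℝ
  | none => 1
  | some a => x a

section aff

variable {ι κ κ' : Type} [Fintype ι] [Fintype κ] [Fintype κ']

/-- The function is affine with rational coefficients. -/
def IsAff (a : (κ → ℝ) → ℝ) : Prop := ∃ t : Option κ → ℚ, ∀ y, a y = ∑ b, (t b : ℝ) * ex y b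

lemma IsAff.const (q : ℚ) : IsAff fun _ : κ → ℝ => (q : ℝ) := by
  refine ⟨fun b => b.elim q fun _ => 0, fun y => ?_⟩
  rw [Fintype.sum_option]
  simp [ex]

lemma IsAff.coord (j : κ) : IsAff fun y : κ → ℝ => y j := by
  classical
  refine ⟨fun b => b.elim 0 fun i => if i = j then 1 else 0, fun y => ?_⟩
  rw [Fintype.sum_option]
  simp only [ex, Option.elim, Rat.cast_zero, zero_mul, zero_add]
  rw [Finset.sum_eq_single j]
  · simp
  · intro i _ hi
    simp [hi]
  · intro h
    exact absurd (Finset.mem_univ j) h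

lemma IsAff.add {a b : (κ → ℝ) → ℝ} (ha : IsAff a) (hb : IsAff b) : IsAff fun y => a y + b y := by
  obtain ⟨s, hs⟩ := ha
  obtain ⟨t, ht⟩ := hb
  refine ⟨fun i => s i + t i, fun y => ?_⟩
  beta_reduce
  rw [hs, ht, ← Finset.sum_add_distrib]
  exact Finset.sum_congr rfl fun i _ => by push_cast; ring

lemma IsAff.smul {a : (κ → ℝ) → ℝ} (q : ℚ) (ha : IsAff a) : IsAff fun y => q * a y := by
  obtain ⟨s, hs⟩ := ha
  refine ⟨fun i => q * s i, fun y => ?_⟩
  beta_reduce
  rw [hs, Finset.mul_sum]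
  exact Finset.sum_congr rfl fun i _ => by push_cast; ring

lemma IsAff.neg {a : (κ → ℝ) → ℝ} (ha : IsAff a) : IsAff fun y => -a y := by
  have h := ha.smul (-1)
  have h1 : (fun y => -a y) = fun y => ((-1 : ℚ) : ℝ) * a y := by
    funext y
    push_cast
    ring
  rw [h1]
  exact h

lemma IsAff.sub {a b : (κ → ℝ) → ℝ} (ha : IsAff a) (hb : IsAff b) : IsAff fun y => a y - b y := by
  simpa only [sub_eq_add_neg] using ha.add hb.neg

lemma IsAff.sum {τ : Type} [Fintype τ] {a : τ → (κ → ℝ) → ℝ} (ha : ∀ t, IsAff (a t)) :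
    IsAff fun y => ∑ t, a t y := by
  classical
  have h : ∀ s : Finset τ, IsAff fun y => ∑ t ∈ s, a t y := by
    intro s
    induction s using Finset.induction_on with
    | empty => simpa using IsAff.const (κ := κ) 0
    | insert t s ht ih =>
      simp only [Finset.sum_insert ht]
      exact (ha t).add ih
  exact h Finset.univ

lemma IsAff.reindex {a : (κ → ℝ) → ℝ} (ha : IsAff a) (f : κ → κ') : IsAff fun y : κ' → ℝ => a fun j => y (f j) := by
  obtain ⟨t, ht⟩ := ha
  have h1 : (fun y : κ' → ℝ => a fun j => y (f j)) = fun y => (t none : ℝ) + ∑ j, (t (some j) : ℝ) * y (f j) := by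
    funext y
    rw [ht, Fintype.sum_option]
    simp [ex]
  rw [h1]
  exact (IsAff.const _).add (IsAff.sum fun j => (IsAff.coord (f j)).smul _)

lemma IsAff.continuous {a : (κ → ℝ) → ℝ} (ha : IsAff a) : Continuous a := by
  obtain ⟨t, ht⟩ := ha
  have h1 : a = fun y => (t none : ℝ) + ∑ j, (t (some j) : ℝ) * y j := by
    funext y
    rw [ht, Fintype.sum_option]
    simp [ex]
  rw [h1]
  fun_prop

/-- The function is bilinear in the vectors `(1, x)` and `(1, y)`, with rational coefficients. -/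
def IsBil (g : (ι → ℝ) → (κ → ℝ) → ℝ) : Prop :=
  ∃ c : Option ι → (κ → ℝ) → ℝ, (∀ a, IsAff (c a)) ∧ ∀ x y, g x y = ∑ a, ex x a * c a y

lemma IsBil.right {a : (κ → ℝ) → ℝ} (ha : IsAff a) : IsBil fun (_ : ι → ℝ) y => a y := by
  refine ⟨fun b => b.elim a fun _ _ => 0, fun b => ?_, fun x y => ?_⟩
  · cases b with
    | none => exact ha
    | some i => simpa using IsAff.const (κ := κ) 0
  · rw [Fintype.sum_option]
    simp [ex]

lemma IsBil.mul {a : (κ → ℝ) → ℝ} (i : ι) (ha : IsAff a) : IsBil fun (x : ι → ℝ) y => x i * a y := by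
  classical
  refine ⟨fun b => b.elim (fun _ => 0) fun j => if j = i then a else fun _ => 0, fun b => ?_, fun x y => ?_⟩
  · cases b with
    | none => simpa using IsAff.const (κ := κ) 0
    | some j =>
      by_cases h : j = i
      · simpa [h] using ha
      · simpa [h] using IsAff.const (κ := κ) 0
  · rw [Fintype.sum_option]
    simp only [ex, Option.elim]
    rw [Finset.sum_eq_single i]
    · simp
    · intro j _ hj
      simp [hj]
    · intro h
      exact absurd (Finset.mem_univ i) h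

lemma IsBil.add {g h : (ι → ℝ) → (κ → ℝ) → ℝ} (hg : IsBil g) (hh : IsBil h) : IsBil fun x y => g x y + h x y := by
  obtain ⟨c, hc, hg⟩ := hg
  obtain ⟨d, hd, hh⟩ := hh
  refine ⟨fun a y => c a y + d a y, fun a => (hc a).add (hd a), fun x y => ?_⟩
  beta_reduce
  rw [hg, hh, ← Finset.sum_add_distrib]
  exact Finset.sum_congr rfl fun i _ => by ring

lemma IsBil.neg {g : (ι → ℝ) → (κ → ℝ) → ℝ} (hg : IsBil g) : IsBil fun x y => -g x y := by
  obtain ⟨c, hc, hg⟩ := hg
  refine ⟨fun a y => -c a y, fun a => (hc a).neg, fun x y => ?_⟩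
  beta_reduce
  rw [hg, ← Finset.sum_neg_distrib]
  exact Finset.sum_congr rfl fun i _ => by ring

lemma IsBil.sub {g h : (ι → ℝ) → (κ → ℝ) → ℝ} (hg : IsBil g) (hh : IsBil h) : IsBil fun x y => g x y - h x y := by
  simpa only [sub_eq_add_neg] using hg.add hh.neg

lemma IsBil.left {a : (ι → ℝ) → ℝ} (ha : IsAff a) : IsBil fun x (_ : κ → ℝ) => a x := by
  obtain ⟨t, ht⟩ := ha
  refine ⟨fun b _ => t b, fun b => IsAff.const _, fun x y => ?_⟩
  beta_reduce
  rw [ht]
  exact Finset.sum_congr rfl fun i _ => by ring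

lemma IsBil.reindex {g : (ι → ℝ) → (κ → ℝ) → ℝ} (hg : IsBil g) (f : κ → κ') :
    IsBil fun x (y : κ' → ℝ) => g x fun j => y (f j) := by
  obtain ⟨c, hc, hg⟩ := hg
  exact ⟨fun a y => c a fun j => y (f j), fun a => (hc a).reindex f, fun x y => hg x _⟩

lemma IsBil.continuous {g : (ι → ℝ) → (κ → ℝ) → ℝ} (hg : IsBil g) : Continuous fun z : (ι → ℝ) × (κ → ℝ) => g z.1 z.2 := by
  obtain ⟨c, hc, hg⟩ := hg
  have h1 : (fun z : (ι → ℝ) × (κ → ℝ) => g z.1 z.2) =
      fun z => c none z.2 + ∑ i, z.1 i * c (some i) z.2 := by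
    funext z
    rw [hg, Fintype.sum_option]
    simp [ex]
  rw [h1]
  have h2 : ∀ a, Continuous fun z : (ι → ℝ) × (κ → ℝ) => c a z.2 := fun a => (hc a).continuous.comp continuous_snd
  refine (h2 none).add (continuous_finsetSum _ fun i _ => ?_)
  exact ((continuous_apply i).comp continuous_fst).mul (h2 (some i))

lemma IsBil.exists_coeff {g : (ι → ℝ) → (κ → ℝ) → ℝ} (hg : IsBil g) :
    ∃ T : Option ι → Option κ → ℚ, ∀ x y, g x y = ∑ a, ∑ b, (T a b : ℝ) * ex x a * ex y b := by
  obtain ⟨c, hc, hg⟩ := hg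
  choose T hT using hc
  refine ⟨T, fun x y => ?_⟩
  rw [hg]
  refine Finset.sum_congr rfl fun a _ => ?_
  rw [hT, Finset.mul_sum]
  exact Finset.sum_congr rfl fun b _ => by ring

end aff

section weights

variable {ι : Type} [Fintype ι]

/-- The function `φ` is the volume of the fibres of a region given by bilinear inequalities. -/
def IsW (φ : (ι → ℝ) → ENNReal) : Prop :=
  ∃ (κ : Type) (_ : Fintype κ) (Λ : Type) (_ : Fintype Λ) (g : Λ → (ι → ℝ) → (κ → ℝ) → ℝ),
    (∀ l, IsBil (g l)) ∧ ∀ x, φ x = volume {y : κ → ℝ | ∀ l, 0 < g l x y}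

lemma volume_sum_prod {κ κ' : Type} [Fintype κ] [Fintype κ'] (A : Set (κ → ℝ)) (B : Set (κ' → ℝ)) :
    volume {y : κ ⊕ κ' → ℝ | (fun j => y (Sum.inl j)) ∈ A ∧ (fun j => y (Sum.inr j)) ∈ B} =
      volume A * volume B := by
  have h1 := volume_measurePreserving_sumPiEquivProdPi (fun _ : κ ⊕ κ' => ℝ)
  have h2 := h1.measure_preimage_equiv (f := MeasurableEquiv.sumPiEquivProdPi fun _ : κ ⊕ κ' => ℝ) (A ×ˢ B)
  rw [← Measure.prod_prod]
  exact h2

lemma IsW.mul {φ ψ : (ι → ℝ) → ENNReal} (hφ : IsW φ) (hψ : IsW ψ) : IsW fun x => φ x * ψ x := by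
  obtain ⟨κ, _, Λ, _, g, hg, h1⟩ := hφ
  obtain ⟨κ', _, Λ', _, g', hg', h2⟩ := hψ
  refine ⟨κ ⊕ κ', inferInstance, Λ ⊕ Λ', inferInstance,
    Sum.elim (fun l x y => g l x fun j => y (Sum.inl j)) (fun l x y => g' l x fun j => y (Sum.inr j)), ?_, ?_⟩
  · rintro (l | l)
    · exact (hg l).reindex _
    · exact (hg' l).reindex _
  · intro x
    beta_reduce
    rw [h1, h2, ← volume_sum_prod]
    congr 1
    ext y
    constructor
    · rintro ⟨ha, hb⟩ (l | l)
      · exact ha l
      · exact hb l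
    · intro h
      exact ⟨fun l => h (Sum.inl l), fun l => h (Sum.inr l)⟩

lemma volume_unit (S : Set ℝ) : volume {y : Unit → ℝ | y () ∈ S} = volume S := by
  have h1 := volume_preserving_funUnique Unit ℝ
  have h2 := h1.measure_preimage_equiv (f := MeasurableEquiv.funUnique Unit ℝ) S
  exact h2

/-- The length of the interval between zero and an affine function. -/
lemma IsW.ofReal {a : (ι → ℝ) → ℝ} (ha : IsAff a) : IsW fun x => ENNReal.ofReal (a x) := by
  refine ⟨Unit, inferInstance, Bool, inferInstance,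
    fun l x y => if l then y () else a x - y (), ?_, fun x => ?_⟩
  · rintro (_ | _)
    · simpa using (IsBil.left ha).sub (IsBil.right (IsAff.coord ()))
    · simpa using IsBil.right (ι := ι) (IsAff.coord ())
  · have h1 : {y : Unit → ℝ | ∀ l : Bool, 0 < (if l then y () else a x - y ())} =
        {y : Unit → ℝ | y () ∈ Set.Ioo 0 (a x)} := by
      ext y
      simp only [Bool.forall_bool, Set.mem_ofPred_eq, Set.mem_Ioo, Bool.false_eq_true, if_false, if_true, sub_pos]
      exact And.comm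
    rw [h1, volume_unit, Real.volume_Ioo, sub_zero]

lemma IsW.const {q : ℚ} : IsW fun _ : ι → ℝ => ENNReal.ofReal (q : ℝ) :=
  IsW.ofReal (IsAff.const q)

lemma IsW.one : IsW fun _ : ι → ℝ => 1 := by
  have h := IsW.const (ι := ι) (q := 1)
  simpa using h

lemma IsW.pow {φ : (ι → ℝ) → ENNReal} (h : IsW φ) (n : ℕ) : IsW fun x => φ x ^ n := by
  induction n with
  | zero => simpa using IsW.one (ι := ι)
  | succ n ih => simpa only [pow_succ] using ih.mul h

/-- The indicator function of a region given by affine inequalities. -/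
lemma IsW.ind {Λ : Type} [Fintype Λ] {a : Λ → (ι → ℝ) → ℝ} (ha : ∀ l, IsAff (a l)) [∀ x, Decidable (∀ l, 0 < a l x)] :
    IsW fun x => if ∀ l, 0 < a l x then 1 else 0 := by
  refine ⟨Unit, inferInstance, Λ ⊕ Bool, inferInstance,
    Sum.elim (fun l x _ => a l x) (fun b _ y => if b then y () else 1 - y ()), ?_, fun x => ?_⟩
  · rintro (l | _ | _)
    · exact IsBil.left (ha l)
    · have h := IsBil.right (ι := ι) ((IsAff.const (κ := Unit) 1).sub (IsAff.coord ()))
      simpa using h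
    · simpa using IsBil.right (ι := ι) (IsAff.coord ())
  · beta_reduce
    by_cases h : ∀ l, 0 < a l x
    · rw [if_pos h]
      have h1 : {y : Unit → ℝ | ∀ l : Λ ⊕ Bool, 0 < Sum.elim (fun (l : Λ) (x : ι → ℝ) (_ : Unit → ℝ) => a l x)
          (fun b _ y => if b then y () else 1 - y ()) l x y} = {y : Unit → ℝ | y () ∈ Set.Ioo (0 : ℝ) 1} := by
        ext y
        simp only [Sum.forall, Bool.forall_bool, Set.mem_ofPred_eq, Set.mem_Ioo, Sum.elim_inl, Sum.elim_inr,
          Bool.false_eq_true, if_false, if_true, sub_pos]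
        exact ⟨fun h2 => ⟨h2.2.2, h2.2.1⟩, fun h2 => ⟨h, h2.2, h2.1⟩⟩
      rw [h1, volume_unit, Real.volume_Ioo]
      simp
    · rw [if_neg h]
      have h1 : {y : Unit → ℝ | ∀ l : Λ ⊕ Bool, 0 < Sum.elim (fun (l : Λ) (x : ι → ℝ) (_ : Unit → ℝ) => a l x)
          (fun b _ y => if b then y () else 1 - y ()) l x y} = ∅ := by
        ext y
        simp only [Sum.forall, Set.mem_ofPred_eq, Sum.elim_inl, Set.mem_empty_iff_false, iff_false]
        exact fun h2 => h h2.1
      rw [h1, measure_empty]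

/-- The integral of the volumes of the fibres. -/
lemma IsW.total {φ : (ι → ℝ) → ENNReal} (h : IsW φ) :
    ∃ (κ : Type) (_ : Fintype κ) (Λ : Type) (_ : Fintype Λ) (T : Λ → Option ι → Option κ → ℚ),
      ∫⁻ x, φ x = volume {z : (ι → ℝ) × (κ → ℝ) | ∀ l, 0 < ∑ a, ∑ b, (T l a b : ℝ) * ex z.1 a * ex z.2 b} := by
  obtain ⟨κ, _, Λ, _, g, hg, h1⟩ := h
  choose T hT using fun l => (hg l).exists_coeff
  refine ⟨κ, inferInstance, Λ, inferInstance, T, ?_⟩
  have h2 : {z : (ι → ℝ) × (κ → ℝ) | ∀ l, 0 < ∑ a, ∑ b, (T l a b : ℝ) * ex z.1 a * ex z.2 b} =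
      {z : (ι → ℝ) × (κ → ℝ) | ∀ l, 0 < g l z.1 z.2} := by
    ext z
    simp only [Set.mem_ofPred_eq]
    exact forall_congr' fun l => by rw [hT]
  have h3 : MeasurableSet {z : (ι → ℝ) × (κ → ℝ) | ∀ l, 0 < g l z.1 z.2} := by
    have h4 : {z : (ι → ℝ) × (κ → ℝ) | ∀ l, 0 < g l z.1 z.2} = ⋂ l, {z | 0 < g l z.1 z.2} := by
      ext z
      simp
    rw [h4]
    exact MeasurableSet.iInter fun l => (isOpen_lt continuous_const (hg l).continuous).measurableSet
  rw [h2, Measure.volume_eq_prod, Measure.prod_apply h3]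
  exact lintegral_congr fun x => h1 x

end weights

end Q54.KZ
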