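import Pool.Agent.Q54.KZ.Mom

/-!
# Every period is a difference of two volumes, and a first moment
-/

set_option autoImplicit false

namespace Q54.KZ

open MeasureTheory

/-- The finite volumes of the regions given by polynomial inequalities in the positive orthants. -/
def bas : Set ℝ :=
  {v | ∃ (ι : Type) (_ : Fintype ι) (ps : List (MvPolynomial ι ℚ)), volume (pos ps) ≠ ⊤ ∧ v = (volume (pos ps)).toReal}

lemma exists_pad {ι ι' : Type} [Fintype ι] [Fintype ι'] (ps : List (MvPolynomial ι ℚ)) :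
    ∃ qs : List (MvPolynomial (ι ⊕ ι') ℚ), volume (pos qs) = volume (pos ps) := by
  classical
  refine ⟨ps.map (MvPolynomial.rename Sum.inl) ++ (Finset.univ : Finset ι').toList.map fun j => 1 - MvPolynomial.X (Sum.inr j), ?_⟩
  have h1 := volume_sum_prod (pos ps) {z : ι' → ℝ | ∀ j, 0 < z j ∧ z j < 1}
  rw [volume_box, mul_one] at h1
  rw [← h1]
  congr 1
  ext z
  have h2 : ∀ p : MvPolynomial ι ℚ, (MvPolynomial.aeval z (MvPolynomial.rename Sum.inl p : MvPolynomial (ι ⊕ ι') ℚ) : ℝ) =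
      MvPolynomial.aeval (fun i => z (Sum.inl i)) p := by
    intro p
    rw [MvPolynomial.aeval_rename]
    rfl
  simp only [pos, Set.mem_ofPred_eq, Sum.forall, List.mem_append, or_imp, forall_and, List.mem_map,
    forall_exists_index, and_imp, forall_apply_eq_imp_iff₂, h2, Finset.mem_toList, Finset.mem_univ, forall_const]
  have h7 : ∀ j : ι', (MvPolynomial.aeval z (1 - MvPolynomial.X (Sum.inr j) : MvPolynomial (ι ⊕ ι') ℚ) : ℝ) =
      1 - z (Sum.inr j) := by
    intro j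
    rw [map_sub, map_one, MvPolynomial.aeval_X]
  constructor
  · rintro ⟨⟨h3, h4⟩, h5, h6⟩
    refine ⟨⟨h3, h5⟩, h4, fun j => ?_⟩
    have h8 := h6 _ j rfl
    rw [h7] at h8
    linarith
  · rintro ⟨⟨h3, h5⟩, h4, h6⟩
    refine ⟨⟨h3, h4⟩, h5, ?_⟩
    rintro _ j rfl
    rw [h7]
    linarith [h6 j]

lemma exists_pad' {ι ι' : Type} [Fintype ι] [Fintype ι'] (ps : List (MvPolynomial ι' ℚ)) :
    ∃ qs : List (MvPolynomial (ι ⊕ ι') ℚ), volume (pos qs) = volume (pos ps) := by
  obtain ⟨qs, h⟩ := exists_pad (ι' := ι) ps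
  refine ⟨qs.map (MvPolynomial.rename (Equiv.sumComm ι' ι)), ?_⟩
  rw [← h, ← volume_reindex (Equiv.sumComm ι ι') (pos qs)]
  congr 1
  ext z
  simp only [pos, Set.mem_ofPred_eq, Sum.forall, List.mem_map, forall_exists_index, and_imp,
    forall_apply_eq_imp_iff₂, MvPolynomial.aeval_rename]
  constructor
  · rintro ⟨⟨h3, h4⟩, h5⟩
    exact ⟨⟨h4, h3⟩, h5⟩
  · rintro ⟨⟨h3, h4⟩, h5⟩
    exact ⟨⟨h4, h3⟩, h5⟩

lemma bas_zero : (0 : ℝ) ∈ bas := by
  refine ⟨Empty, inferInstance, [0], ?_, ?_⟩ <;>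
  · have h1 : pos [(0 : MvPolynomial Empty ℚ)] = ∅ := by
      ext z
      simp [pos]
    rw [h1]
    simp

lemma bas_add {v w : ℝ} (hv : v ∈ bas) (hw : w ∈ bas) : v + w ∈ bas := by
  obtain ⟨ι, _, ps, h1, rfl⟩ := hv
  obtain ⟨ι', _, qs, h2, rfl⟩ := hw
  obtain ⟨ps', h3⟩ := exists_pad (ι' := ι') ps
  obtain ⟨qs', h4⟩ := exists_pad' (ι := ι) qs
  obtain ⟨κ, _, rs, h5⟩ := exists_merge ps' qs'
  have h6 := h5 (fun _ => 1) measurable_const
  simp only [lintegral_const, Measure.restrict_apply_univ, one_mul, Real.volume_Ioo] at h6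
  rw [h3, h4] at h6
  norm_num at h6
  refine ⟨_, inferInstance, rs, ?_, ?_⟩
  · rw [h6]
    exact ENNReal.add_ne_top.2 ⟨h1, h2⟩
  · rw [h6, ENNReal.toReal_add h1 h2]

lemma exists_sub {v : ℝ} (h : v ∈ AddSubgroup.closure bas) : ∃ a ∈ bas, ∃ b ∈ bas, v = a - b := by
  induction h using AddSubgroup.closure_induction with
  | mem x hx => exact ⟨x, hx, 0, bas_zero, by simp⟩
  | zero => exact ⟨0, bas_zero, 0, bas_zero, by simp⟩
  | add x y _ _ hx hy =>
    obtain ⟨a, ha, b, hb, rfl⟩ := hx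
    obtain ⟨c, hc, d, hd, rfl⟩ := hy
    exact ⟨a + c, bas_add ha hc, b + d, bas_add hb hd, by ring⟩
  | neg x _ hx =>
    obtain ⟨a, ha, b, hb, rfl⟩ := hx
    exact ⟨b, hb, a, ha, by ring⟩

lemma vols_le : AddSubgroup.closure vols ≤ AddSubgroup.closure bas := by
  rw [AddSubgroup.closure_le]
  rintro v ⟨n, m, r, T, h1, rfl⟩
  have h2 : volume (reg T) = volume {z : Fin (n + m) → ℝ | ∀ p ∈ List.ofFn fun c => bil (T c),
      0 < (MvPolynomial.aeval z p : ℝ)} := by
    rw [← volume_append]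
    congr 1
    ext z
    simp only [reg, Set.mem_ofPred_eq, List.mem_ofFn', Set.mem_range, forall_exists_index,
      forall_apply_eq_imp_iff, aeval_bil]
  rw [h2, volume_orthants (measurableSet_poly _)] at h1 ⊢
  have h3 : ∀ s : Fin (n + m) → Bool, volume {x : Fin (n + m) → ℝ | (∀ i, 0 < x i) ∧ flip s x ∈
      {z : Fin (n + m) → ℝ | ∀ p ∈ List.ofFn fun c => bil (T c), 0 < (MvPolynomial.aeval z p : ℝ)}} =
      volume (pos ((List.ofFn fun c => bil (T c)).map fun p => MvPolynomial.bind₁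
        (fun i => if s i then MvPolynomial.X i else -MvPolynomial.X i) p)) := by
    intro s
    congr 1
    ext x
    have h1 : ∀ p : MvPolynomial (Fin (n + m)) ℚ, (MvPolynomial.aeval x (MvPolynomial.bind₁
        (fun i => if s i then MvPolynomial.X i else -MvPolynomial.X i) p) : ℝ) = MvPolynomial.aeval (flip s x) p := by
      intro p
      rw [MvPolynomial.aeval_bind₁]
      congr 2
      funext i
      cases hs : s i <;> simp [flip, hs]
    simp only [pos, Set.mem_ofPred_eq, List.mem_map, forall_exists_index, and_imp, forall_apply_eq_imp_iff₂, h1]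
  simp only [h3] at h1 ⊢
  have h4 := ENNReal.sum_ne_top.1 h1
  rw [SetLike.mem_coe, ENNReal.toReal_sum fun s hs => h4 s hs]
  exact AddSubgroup.sum_mem _ fun s hs => AddSubgroup.subset_closure ⟨_, inferInstance, _, h4 s hs, rfl⟩

end Q54.KZ
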