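import Pool.Agent.Q54.KZ.Dif

/-!
# First moments of the regions given by bilinear inequalities
-/

set_option autoImplicit false

namespace Q54.KZ

open MeasureTheory

lemma IsW.fibre {ι : Type} [Fintype ι] {φ : (ι → ℝ) → ENNReal} (h : IsW φ) {n : ℕ} (e : ι ≃ Fin n) :
    ∃ (m r : ℕ) (T : Fin r → Fin (n + 1) → Fin (m + 1) → ℤ),
      ∀ x : Fin n → ℝ, volume {y : Fin m → ℝ | (x, y) ∈ reg T} = φ fun i => x (e i) := by
  obtain ⟨κ, _, Λ, _, g, hg, h1⟩ := h
  choose T hT using fun l => (hg l).exists_coeff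
  choose T' hT' using fun l => exists_int (T l)
  let e' := Fintype.equivFin κ
  let e'' := Fintype.equivFin Λ
  refine ⟨_, _, fun c a b => T' (e''.symm c) (fo e a) (fo e' b), fun x => ?_⟩
  rw [h1, ← volume_reindex e']
  congr 1
  ext y
  have h5 : ∀ c, ∑ a, ∑ b, (T' c a b : ℝ) * ex (fun i => x (e i)) a * ex y b =
      ∑ a, ∑ b, (T' c (fo e a) (fo e' b) : ℝ) * (Fin.cons 1 x : Fin (_ + 1) → ℝ) a *
        (Fin.cons 1 (fun i => y (e'.symm i)) : Fin (_ + 1) → ℝ) b := by
    intro c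
    rw [sum_fo e (fun a t => ∑ b, (T' c a b : ℝ) * t * ex y b) (fun i => x (e i))]
    simp only [Equiv.apply_symm_apply]
    refine Finset.sum_congr rfl fun a _ => ?_
    exact sum_fo e' (fun b t => (T' c (fo e a) b : ℝ) * (Fin.cons 1 x : Fin (_ + 1) → ℝ) a * t) y
  simp only [Set.mem_ofPred_eq, hT, hT', h5, reg]
  exact (Equiv.forall_congr_right (q := fun l => 0 < ∑ a, ∑ b, (T' l (fo e a) (fo e' b) : ℝ) *
    (Fin.cons 1 x : Fin (_ + 1) → ℝ) a * (Fin.cons 1 (fun i => y (e'.symm i)) : Fin (_ + 1) → ℝ) b) e''.symm)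

/-- **The indicator function of a region given by polynomial inequalities is the volume of the fibres of a region given by
bilinear inequalities.** -/
theorem exists_reg_fibre {n : ℕ} (ps : List (MvPolynomial (Fin n) ℚ)) :
    ∃ (m r : ℕ) (T : Fin r → Fin (n + 1) → Fin (m + 1) → ℤ),
      ∀ x : Fin n → ℝ, volume {y : Fin m → ℝ | (x, y) ∈ reg T} = chi (x ∈ pos ps) := by
  obtain ⟨m, r, T, h⟩ := (isW_list ps).fibre (Equiv.refl (Fin n))
  exact ⟨m, r, T, h⟩

lemma measurableSet_reg {n m r : ℕ} (T : Fin r → Fin (n + 1) → Fin (m + 1) → ℤ) : MeasurableSet (reg T) := by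
  have h1 : reg T = ⋂ c, {z : (Fin n → ℝ) × (Fin m → ℝ) | 0 < ∑ a, ∑ b, (T c a b : ℝ) *
      (Fin.cons 1 z.1 : Fin (n + 1) → ℝ) a * (Fin.cons 1 z.2 : Fin (m + 1) → ℝ) b} := by
    ext z
    simp [reg]
  rw [h1]
  refine MeasurableSet.iInter fun c => measurableSet_lt measurable_const ?_
  have h2 : ∀ a, Measurable fun z : (Fin n → ℝ) × (Fin m → ℝ) => (Fin.cons 1 z.1 : Fin (n + 1) → ℝ) a := by
    intro a
    refine Fin.cases ?_ (fun i => ?_) a
    · simp only [Fin.cons_zero]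
      exact measurable_const
    · simp only [Fin.cons_succ]
      fun_prop
  have h3 : ∀ a, Measurable fun z : (Fin n → ℝ) × (Fin m → ℝ) => (Fin.cons 1 z.2 : Fin (m + 1) → ℝ) a := by
    intro a
    refine Fin.cases ?_ (fun i => ?_) a
    · simp only [Fin.cons_zero]
      exact measurable_const
    · simp only [Fin.cons_succ]
      fun_prop
  refine Finset.measurable_fun_sum _ fun a _ => Finset.measurable_fun_sum _ fun b _ => ?_
  exact (measurable_const.mul (h2 a)).mul (h3 b)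

/-- Integrals over a region given by bilinear inequalities. -/
lemma lintegral_reg {n m r : ℕ} {T : Fin r → Fin (n + 1) → Fin (m + 1) → ℤ} {ps : List (MvPolynomial (Fin n) ℚ)}
    (h : ∀ x : Fin n → ℝ, volume {y : Fin m → ℝ | (x, y) ∈ reg T} = chi (x ∈ pos ps)) {g : (Fin n → ℝ) → ENNReal}
    (hg : Measurable g) : ∫⁻ z in reg T, g z.1 = ∫⁻ x in pos ps, g x := by
  rw [← lintegral_indicator (measurableSet_reg T), ← lintegral_indicator (measurableSet_pos' ps),
    Measure.volume_eq_prod, lintegral_prod]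
  · refine lintegral_congr fun x => ?_
    have h1 : ∀ y : Fin m → ℝ, (reg T).indicator (fun z : (Fin n → ℝ) × (Fin m → ℝ) => g z.1) (x, y) =
        g x * chi ((x, y) ∈ reg T) := by
      intro y
      by_cases hy : (x, y) ∈ reg T
      · rw [Set.indicator_of_mem hy, chi_pos hy, mul_one]
      · rw [Set.indicator_of_notMem hy, chi_neg hy, mul_zero]
    have hm : MeasurableSet {y : Fin m → ℝ | (x, y) ∈ reg T} := (measurableSet_reg T).preimage (by fun_prop)
    simp only [h1]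
    rw [lintegral_const_mul _ (measurable_chi hm), lintegral_chi hm, h]
    by_cases hx : x ∈ pos ps
    · rw [Set.indicator_of_mem hx, chi_pos hx, mul_one]
    · rw [Set.indicator_of_notMem hx, chi_neg hx, mul_zero]
  · exact ((hg.comp measurable_fst).indicator (measurableSet_reg T)).aemeasurable

lemma sum_two {n : ℕ} (F G : Fin (n + 1 + 1) → ℝ) (h0 : F 0 + F 1 = G 0 + G 1)
    (h : ∀ i : Fin n, F i.succ.succ = G i.succ.succ) : ∑ a, F a = ∑ a, G a := by
  rw [Fin.sum_univ_succ, Fin.sum_univ_succ, Fin.sum_univ_succ G, Fin.sum_univ_succ fun i : Fin (n + 1) => G i.succ,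
    ← add_assoc, ← add_assoc, Finset.sum_congr rfl fun i _ => h i]
  congr 1

/-- Translation of the first coordinate. -/
lemma exists_shift {n m r : ℕ} (T : Fin r → Fin (n + 1 + 1) → Fin (m + 1) → ℤ) :
    ∃ T' : Fin r → Fin (n + 1 + 1) → Fin (m + 1) → ℤ, ∀ (x : Fin (n + 1) → ℝ) (y : Fin m → ℝ),
      (x, y) ∈ reg T' ↔ ((fun i => x i + if i = 0 then 1 else 0), y) ∈ reg T := by
  refine ⟨fun c a b => T c a b + if a = 0 then T c 1 b else 0, fun x y => forall_congr' fun c => ?_⟩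
  have h1 : ∑ a, ∑ b, ((T c a b + if a = 0 then T c 1 b else 0 : ℤ) : ℝ) *
      (Fin.cons 1 x : Fin (n + 1 + 1) → ℝ) a * (Fin.cons 1 y : Fin (m + 1) → ℝ) b =
      ∑ a, ∑ b, (T c a b : ℝ) * (Fin.cons 1 (fun i => x i + if i = 0 then 1 else 0) : Fin (n + 1 + 1) → ℝ) a *
        (Fin.cons 1 y : Fin (m + 1) → ℝ) b := by
    refine sum_two _ _ ?_ fun a => ?_
    · rw [← Finset.sum_add_distrib, ← Finset.sum_add_distrib]
      refine Finset.sum_congr rfl fun b _ => ?_
      have h2 : (Fin.cons 1 x : Fin (n + 1 + 1) → ℝ) 1 = x 0 := rfl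
      have h3 : (Fin.cons 1 (fun i => x i + if i = 0 then 1 else 0) : Fin (n + 1 + 1) → ℝ) 1 = x 0 + 1 := by
        change x 0 + (if (0 : Fin (n + 1)) = 0 then 1 else 0) = x 0 + 1
        rw [if_pos rfl]
      rw [h2, h3, if_pos rfl, if_neg (show (1 : Fin (n + 1 + 1)) ≠ 0 by simp)]
      simp only [Fin.cons_zero]
      push_cast
      ring
    · refine Finset.sum_congr rfl fun b _ => ?_
      have h2 : (Fin.cons 1 (fun i => x i + if i = 0 then 1 else 0) : Fin (n + 1 + 1) → ℝ) a.succ.succ = x a.succ := by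
        rw [Fin.cons_succ, if_neg (Fin.succ_ne_zero a), add_zero]
      rw [h2, Fin.cons_succ, if_neg (Fin.succ_ne_zero _), add_zero]
  rw [h1]

lemma lintegral_shift {n m r : ℕ} {T T' : Fin r → Fin (n + 1 + 1) → Fin (m + 1) → ℤ}
    (h : ∀ (x : Fin (n + 1) → ℝ) (y : Fin m → ℝ),
      (x, y) ∈ reg T' ↔ ((fun i => x i + if i = 0 then 1 else 0), y) ∈ reg T) (g : ℝ → ENNReal) :
    ∫⁻ z in reg T', g (z.1 0) = ∫⁻ z in reg T, g (z.1 0 - 1) := by
  let a : Fin (n + 1) → ℝ := fun i => if i = 0 then 1 else 0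
  have h1 := (measurePreserving_add_right (volume : Measure (Fin (n + 1) → ℝ)) a).prod
    (MeasurePreserving.id (volume : Measure (Fin m → ℝ)))
  have h2 := h1.setLIntegral_comp_preimage_emb
    ((MeasurableEquiv.addRight a).prodCongr (MeasurableEquiv.refl (Fin m → ℝ))).measurableEmbedding
    (fun z => g (z.1 0 - 1)) (reg T)
  have h3 : Prod.map (fun x => x + a) id ⁻¹' reg T = reg T' := by
    ext ⟨x, y⟩
    rw [h]
    rfl
  rw [h3] at h2
  rw [Measure.volume_eq_prod, ← h2]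
  refine lintegral_congr fun z => ?_
  congr 1
  simp [a]

end Q54.KZ
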