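import Pool.Agent.Q54.KZ.Bil

/-!
# The evaluation of a polynomial by a sequence of multiplications by coordinates
-/

set_option autoImplicit false

namespace Q54.KZ

open MeasureTheory

variable {ι κ κ' : Type} [Fintype κ] [Fintype κ']

/-- The function is a linear form with rational coefficients in `w` and `y`. -/
def IsLin (o : ℝ → (κ → ℝ) → ℝ) : Prop := ∃ (a : ℚ) (b : κ → ℚ), ∀ w y, o w y = a * w + ∑ j, (b j : ℝ) * y j

lemma IsLin.fst : IsLin fun w (_ : κ → ℝ) => w :=
  ⟨1, fun _ => 0, fun w y => by simp⟩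

lemma IsLin.coord (j : κ) : IsLin fun _ (y : κ → ℝ) => y j := by
  classical
  refine ⟨0, fun i => if i = j then 1 else 0, fun w y => ?_⟩
  rw [Finset.sum_eq_single j]
  · simp
  · intro i _ hi
    simp [hi]
  · intro h
    exact absurd (Finset.mem_univ j) h

lemma IsLin.add {o p : ℝ → (κ → ℝ) → ℝ} (ho : IsLin o) (hp : IsLin p) : IsLin fun w y => o w y + p w y := by
  obtain ⟨a, b, h⟩ := ho
  obtain ⟨a', b', h'⟩ := hp
  refine ⟨a + a', fun j => b j + b' j, fun w y => ?_⟩
  have h1 : ∑ j, ((b j + b' j : ℚ) : ℝ) * y j = ∑ j, (b j : ℝ) * y j + ∑ j, (b' j : ℝ) * y j := by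
    rw [← Finset.sum_add_distrib]
    exact Finset.sum_congr rfl fun j _ => by push_cast; ring
  beta_reduce
  rw [h, h', h1]
  push_cast
  ring

lemma IsLin.smul {o : ℝ → (κ → ℝ) → ℝ} (q : ℚ) (ho : IsLin o) : IsLin fun w y => q * o w y := by
  obtain ⟨a, b, h⟩ := ho
  refine ⟨q * a, fun j => q * b j, fun w y => ?_⟩
  beta_reduce
  rw [h, mul_add, Finset.mul_sum]
  push_cast
  rw [← mul_assoc]
  congr 1
  exact Finset.sum_congr rfl fun j _ => by ring

lemma IsLin.zero : IsLin fun _ (_ : κ → ℝ) => (0 : ℝ) :=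
  ⟨0, fun _ => 0, fun w y => by simp⟩

lemma IsLin.sum {τ : Type} [Fintype τ] {o : τ → ℝ → (κ → ℝ) → ℝ} (ho : ∀ t, IsLin (o t)) :
    IsLin fun w y => ∑ t, o t w y := by
  classical
  have h : ∀ s : Finset τ, IsLin fun w y => ∑ t ∈ s, o t w y := by
    intro s
    induction s using Finset.induction_on with
    | empty => simpa using IsLin.zero (κ := κ)
    | insert t s ht ih =>
      simp only [Finset.sum_insert ht]
      exact (ho t).add ih
  exact h Finset.univ

lemma IsLin.reindex {o : ℝ → (κ → ℝ) → ℝ} (ho : IsLin o) (f : κ → κ') :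
    IsLin fun w (y : κ' → ℝ) => o w fun j => y (f j) := by
  obtain ⟨a, b, h⟩ := ho
  have h1 : (fun w (y : κ' → ℝ) => o w fun j => y (f j)) = fun w y => (a : ℝ) * w + ∑ j, (b j : ℝ) * y (f j) := by
    funext w y
    rw [h]
  rw [h1]
  exact (IsLin.fst.smul a).add (IsLin.sum fun j => (IsLin.coord (f j)).smul (b j))

lemma IsLin.measurable {o : ℝ → (κ → ℝ) → ℝ} (ho : IsLin o) : Measurable fun z : ℝ × (κ → ℝ) => o z.1 z.2 := by
  obtain ⟨a, b, h⟩ := ho
  have h1 : (fun z : ℝ × (κ → ℝ) => o z.1 z.2) = fun z => (a : ℝ) * z.1 + ∑ j, (b j : ℝ) * z.2 j := by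
    funext z
    rw [h]
  rw [h1]
  fun_prop

/-- With `w = 1` the form is affine. -/
lemma IsLin.aff_one {o : ℝ → (κ → ℝ) → ℝ} (ho : IsLin o) : IsAff fun y => o 1 y := by
  obtain ⟨a, b, h⟩ := ho
  have h1 : (fun y => o 1 y) = fun y => (a : ℝ) + ∑ j, (b j : ℝ) * y j := by
    funext y
    rw [h, mul_one]
  rw [h1]
  exact (IsAff.const a).add (IsAff.sum fun j => (IsAff.coord j).smul (b j))

/-- With `w` as a coordinate the form is affine. -/
lemma IsLin.aff_all {o : ℝ → (κ → ℝ) → ℝ} (ho : IsLin o) :
    IsAff fun y : Unit ⊕ κ → ℝ => o (y (Sum.inl ())) fun j => y (Sum.inr j) := by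
  obtain ⟨a, b, h⟩ := ho
  have h1 : (fun y : Unit ⊕ κ → ℝ => o (y (Sum.inl ())) fun j => y (Sum.inr j)) =
      fun y => (a : ℝ) * y (Sum.inl ()) + ∑ j, (b j : ℝ) * y (Sum.inr j) := by
    funext y
    rw [h]
  rw [h1]
  exact ((IsAff.coord _).smul a).add (IsAff.sum fun j => (IsAff.coord (Sum.inr j)).smul (b j))

/-- The value at `x` of the monomial with the list of variables `L`. -/
def mon (x : ι → ℝ) (L : List ι) : ℝ := (L.map x).prod

lemma lintegral_sum {f : (κ ⊕ κ' → ℝ) → ENNReal} (hf : Measurable f) :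
    ∫⁻ y, f y = ∫⁻ a : κ → ℝ, ∫⁻ b : κ' → ℝ, f (Sum.elim a b) := by
  have h1 := (volume_measurePreserving_sumPiEquivProdPi_symm (fun _ : κ ⊕ κ' => ℝ)).lintegral_comp hf
  rw [← h1, Measure.volume_eq_prod, lintegral_prod]
  · rfl
  · exact (hf.comp (MeasurableEquiv.measurable _)).aemeasurable

omit [Fintype κ] [Fintype κ'] in
lemma measurable_elim {α : Type} [MeasurableSpace α] {a : α → κ → ℝ} {b : α → κ' → ℝ} (ha : Measurable a)
    (hb : Measurable b) : Measurable fun z => (Sum.elim (a z) (b z) : κ ⊕ κ' → ℝ) := by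
  rw [measurable_pi_iff]
  rintro (j | j)
  · exact (measurable_pi_apply j).comp ha
  · exact (measurable_pi_apply j).comp hb

omit [Fintype κ] in
lemma measurable_uncurry' {α : Type} [MeasurableSpace α] {f : ℝ → (κ → ℝ) → ENNReal} (hf : Measurable (Function.uncurry f))
    {a : α → ℝ} {b : α → κ → ℝ} (ha : Measurable a) (hb : Measurable b) : Measurable fun z => f (a z) (b z) :=
  hf.comp (ha.prodMk hb)

lemma IsLin.measurable_right {o : ℝ → (κ → ℝ) → ℝ} (ho : IsLin o) (w : ℝ) : Measurable fun y => o w y :=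
  ho.measurable.comp (measurable_const.prodMk measurable_id)

lemma measurable_noise {x : ι → ℝ} {w : ℝ} {i : κ → ι} {l : κ → ℝ → (κ → ℝ) → ℝ} (hl : ∀ j, IsLin (l j)) :
    Measurable fun (y : κ → ℝ) (j : κ) => y j - x (i j) * l j w y := by
  rw [measurable_pi_iff]
  intro j
  exact (measurable_pi_apply j).sub (((hl j).measurable_right w).const_mul _)

/-- **Evaluation of a polynomial.** -/
theorem exists_gadget (F : MvPolynomial ι ℚ) :
    ∃ (κ : Type) (_ : Fintype κ) (o : ℝ → (κ → ℝ) → ℝ) (i : κ → ι) (l : κ → ℝ → (κ → ℝ) → ℝ) (L : κ → List ι),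
      IsLin o ∧ (∀ j, IsLin (l j)) ∧ ∀ (x : ι → ℝ) (w : ℝ) (f : ℝ → (κ → ℝ) → ENNReal),
        Measurable (Function.uncurry f) →
          ∫⁻ y, f (o w y) (fun j => y j - x (i j) * l j w y) =
            ∫⁻ v, f (MvPolynomial.aeval x F * w + ∑ j, mon x (L j) * v j) v := by
  induction F using MvPolynomial.induction_on with
  | C a =>
    refine ⟨Empty, inferInstance, fun w _ => a * w, fun j => j.elim, fun j => j.elim, fun j => j.elim,
      IsLin.fst.smul a, fun j => j.elim, fun x w f hf => ?_⟩
    refine lintegral_congr fun y => ?_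
    have h1 : (fun j : Empty => y j - x (j.elim) * (j.elim : ℝ)) = y := Subsingleton.elim _ _
    have h2 : MvPolynomial.aeval x (MvPolynomial.C a : MvPolynomial ι ℚ) = (a : ℝ) := by
      rw [MvPolynomial.aeval_C]
      rfl
    rw [h2]
    simp only [Finset.univ_eq_empty, Finset.sum_empty, add_zero]
    congr 1
    exact Subsingleton.elim _ _
  | add p q hp hq =>
    obtain ⟨κ, _, o, i, l, L, ho, hl, h⟩ := hp
    obtain ⟨κ', _, o', i', l', L', ho', hl', h'⟩ := hq
    refine ⟨κ ⊕ κ', inferInstance, fun w y => o w (fun j => y (Sum.inl j)) + o' w (fun j => y (Sum.inr j)),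
      Sum.elim i i', Sum.elim (fun j w y => l j w fun j => y (Sum.inl j)) (fun j w y => l' j w fun j => y (Sum.inr j)),
      Sum.elim L L', (ho.reindex _).add (ho'.reindex _), ?_, fun x w f hf => ?_⟩
    · rintro (j | j)
      · exact (hl j).reindex _
      · exact (hl' j).reindex _
    · have hl1 : ∀ j, IsLin (Sum.elim (fun j w (y : κ ⊕ κ' → ℝ) => l j w fun j => y (Sum.inl j))
          (fun j w y => l' j w fun j => y (Sum.inr j)) j) := by
        rintro (j | j)
        · exact (hl j).reindex _
        · exact (hl' j).reindex _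
      have ho1 : IsLin (fun w (y : κ ⊕ κ' → ℝ) => o w (fun j => y (Sum.inl j)) + o' w (fun j => y (Sum.inr j))) :=
        (ho.reindex _).add (ho'.reindex _)
      rw [lintegral_sum (measurable_uncurry' hf (ho1.measurable_right w) (measurable_noise hl1))]
      let G : ℝ → (κ → ℝ) → ENNReal := fun s v =>
        ∫⁻ v' : κ' → ℝ, f (s + (MvPolynomial.aeval x q * w + ∑ j, mon x (L' j) * v' j)) (Sum.elim v v')
      have hG : Measurable (Function.uncurry G) := by
        have h1 : Measurable fun z : (ℝ × (κ → ℝ)) × (κ' → ℝ) =>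
            f (z.1.1 + (MvPolynomial.aeval x q * w + ∑ j, mon x (L' j) * z.2 j)) (Sum.elim z.1.2 z.2) :=
          measurable_uncurry' hf (by fun_prop) (measurable_elim (by fun_prop) (by fun_prop))
        exact h1.lintegral_prod_right'
      have h2 : ∀ a : κ → ℝ, (∫⁻ b : κ' → ℝ, f (o w a + o' w b)
          (Sum.elim (fun j => a j - x (i j) * l j w a) fun j => b j - x (i' j) * l' j w b)) =
          G (o w a) fun j => a j - x (i j) * l j w a := by
        intro a
        exact h' x w (fun s v' => f (o w a + s) (Sum.elim (fun j => a j - x (i j) * l j w a) v'))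
          (measurable_uncurry' hf (by fun_prop) (measurable_elim (by fun_prop) (by fun_prop)))
      have h3 : ∀ (a : κ → ℝ) (b : κ' → ℝ), (fun j : κ ⊕ κ' => (Sum.elim a b : κ ⊕ κ' → ℝ) j -
          x (Sum.elim i i' j) * Sum.elim (fun j w (y : κ ⊕ κ' → ℝ) => l j w fun j => y (Sum.inl j))
          (fun j w y => l' j w fun j => y (Sum.inr j)) j w (Sum.elim a b)) =
          Sum.elim (fun j => a j - x (i j) * l j w a) fun j => b j - x (i' j) * l' j w b := by
        intro a b
        funext j
        rcases j with j | j <;> rfl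
      have h4 : (∫⁻ (a : κ → ℝ) (b : κ' → ℝ), f (o w a + o' w b)
          (Sum.elim (fun j => a j - x (i j) * l j w a) fun j => b j - x (i' j) * l' j w b)) =
          ∫⁻ v, G (MvPolynomial.aeval x p * w + ∑ j, mon x (L j) * v j) v := by
        rw [← h x w G hG]
        exact lintegral_congr fun a => h2 a
      simp only [h3]
      refine h4.trans ?_
      have hm : Measurable fun v : κ ⊕ κ' → ℝ => f (MvPolynomial.aeval x (p + q) * w +
          ∑ j, mon x (Sum.elim L L' j) * v j) v := measurable_uncurry' hf (by fun_prop) measurable_id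
      rw [lintegral_sum hm]
      refine lintegral_congr fun v => lintegral_congr fun v' => ?_
      congr 1
      rw [map_add, Fintype.sum_sum_type]
      simp only [Sum.elim_inl, Sum.elim_inr]
      ring
  | mul_X p n hp =>
    obtain ⟨κ, _, o, i, l, L, ho, hl, h⟩ := hp
    refine ⟨κ ⊕ Unit, inferInstance, fun _ y => y (Sum.inr ()), Sum.elim i (fun _ => n),
      Sum.elim (fun j w y => l j w fun j => y (Sum.inl j)) (fun _ w y => o w fun j => y (Sum.inl j)),
      Sum.elim (fun j => n :: L j) (fun _ => []), IsLin.coord _, ?_, fun x w f hf => ?_⟩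
    · rintro (j | j)
      · exact (hl j).reindex _
      · exact ho.reindex _
    · have hl1 : ∀ j : κ ⊕ Unit, IsLin (Sum.elim (fun j w (y : κ ⊕ Unit → ℝ) => l j w fun j => y (Sum.inl j))
          (fun _ w y => o w fun j => y (Sum.inl j)) j) := by
        rintro (j | j)
        · exact (hl j).reindex _
        · exact ho.reindex _
      rw [lintegral_sum (measurable_uncurry' hf (by fun_prop) (measurable_noise hl1))]
      let G : ℝ → (κ → ℝ) → ENNReal := fun s v =>
        ∫⁻ v' : Unit → ℝ, f (v' () + x n * s) (Sum.elim v v')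
      have hG : Measurable (Function.uncurry G) := by
        have h1 : Measurable fun z : (ℝ × (κ → ℝ)) × (Unit → ℝ) =>
            f (z.2 () + x n * z.1.1) (Sum.elim z.1.2 z.2) :=
          measurable_uncurry' hf (by fun_prop) (measurable_elim (by fun_prop) (by fun_prop))
        exact h1.lintegral_prod_right'
      have h3 : ∀ (a : κ → ℝ) (b : Unit → ℝ), (fun j : κ ⊕ Unit => (Sum.elim a b : κ ⊕ Unit → ℝ) j -
          x (Sum.elim i (fun _ => n) j) * Sum.elim (fun j w (y : κ ⊕ Unit → ℝ) => l j w fun j => y (Sum.inl j))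
          (fun _ w y => o w fun j => y (Sum.inl j)) j w (Sum.elim a b)) =
          Sum.elim (fun j => a j - x (i j) * l j w a) fun _ => b () - x n * o w a := by
        intro a b
        funext j
        rcases j with j | j <;> rfl
      have h2 : ∀ a : κ → ℝ, (∫⁻ b : Unit → ℝ, f (b ())
          (Sum.elim (fun j => a j - x (i j) * l j w a) fun _ => b () - x n * o w a)) =
          G (o w a) fun j => a j - x (i j) * l j w a := by
        intro a
        have h5 := lintegral_sub_right_eq_self (μ := (volume : Measure (Unit → ℝ)))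
          (fun v' : Unit → ℝ => f (v' () + x n * o w a) (Sum.elim (fun j => a j - x (i j) * l j w a) v'))
          (fun _ => x n * o w a)
        refine Eq.trans ?_ h5
        refine lintegral_congr fun b => ?_
        have h6 : (b - (fun _ => x n * o w a : Unit → ℝ) : Unit → ℝ) () + x n * o w a = b () := by
          rw [Pi.sub_apply]
          ring
        beta_reduce
        rw [h6]
        rfl
      have h4 : (∫⁻ (a : κ → ℝ) (b : Unit → ℝ), f (b ())
          (Sum.elim (fun j => a j - x (i j) * l j w a) fun _ => b () - x n * o w a)) =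
          ∫⁻ v, G (MvPolynomial.aeval x p * w + ∑ j, mon x (L j) * v j) v := by
        rw [← h x w G hG]
        exact lintegral_congr fun a => h2 a
      simp only [h3]
      refine h4.trans ?_
      have hm : Measurable fun v : κ ⊕ Unit → ℝ => f (MvPolynomial.aeval x (p * MvPolynomial.X n) * w +
          ∑ j, mon x (Sum.elim (fun j => n :: L j) (fun _ => []) j) * v j) v :=
        measurable_uncurry' hf (by fun_prop) measurable_id
      rw [lintegral_sum hm]
      refine lintegral_congr fun v => lintegral_congr fun v' => ?_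
      congr 1
      rw [map_mul, MvPolynomial.aeval_X, Fintype.sum_sum_type]
      simp only [Sum.elim_inl, Sum.elim_inr, Finset.univ_unique, Finset.sum_singleton, mon, List.map_cons,
        List.prod_cons, List.map_nil, List.prod_nil, one_mul]
      rw [mul_add, Finset.mul_sum]
      have h7 : ∑ j, x n * ((L j).map x).prod * v j = ∑ j, x n * (((L j).map x).prod * v j) :=
        Finset.sum_congr rfl fun j _ => by ring
      rw [h7]
      ring_nf

end Q54.KZ
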