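import Pool.Agent.Q54.KZ.Sim

/-!
# The indicator function of a polynomial inequality
-/

set_option autoImplicit false

namespace Q54.KZ

open MeasureTheory

section tools

variable {κ κ' : Type} [Fintype κ] [Fintype κ']

open Classical in
/-- The indicator function of a property. -/
noncomputable def chi (P : Prop) : ENNReal := if P then 1 else 0

lemma chi_pos {P : Prop} (h : P) : chi P = 1 := if_pos h

lemma chi_neg {P : Prop} (h : ¬P) : chi P = 0 := if_neg h

lemma measurable_chi {α : Type} [MeasurableSpace α] {P : α → Prop} (h : MeasurableSet {a | P a}) :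
    Measurable fun a => chi (P a) := by
  classical
  have h1 : (fun a => chi (P a)) = {a | P a}.indicator fun _ => (1 : ENNReal) := by
    funext a
    by_cases ha : P a
    · rw [chi_pos ha, Set.indicator_of_mem (show a ∈ {a | P a} from ha)]
    · rw [chi_neg ha, Set.indicator_of_notMem (show a ∉ {a | P a} from ha)]
  rw [h1]
  exact measurable_const.indicator h

lemma lintegral_chi {α : Type} [MeasureSpace α] {P : α → Prop} (h : MeasurableSet {a | P a}) :
    ∫⁻ a, chi (P a) = volume {a | P a} := by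
  have h1 : (fun a => chi (P a)) = {a | P a}.indicator 1 := by
    funext a
    by_cases ha : P a
    · rw [chi_pos ha, Set.indicator_of_mem (show a ∈ {a | P a} from ha), Pi.one_apply]
    · rw [chi_neg ha, Set.indicator_of_notMem (show a ∉ {a | P a} from ha)]
  rw [h1, lintegral_indicator_one h]

lemma chi_and {P Q : Prop} : chi (P ∧ Q) = chi P * chi Q := by
  by_cases hP : P
  · by_cases hQ : Q
    · rw [chi_pos hP, chi_pos hQ, chi_pos ⟨hP, hQ⟩, one_mul]
    · rw [chi_neg hQ, chi_neg fun h => hQ h.2, mul_zero]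
  · rw [chi_neg hP, chi_neg fun h => hP h.1, zero_mul]

lemma measurableSet_box : MeasurableSet {z : κ → ℝ | ∀ j, 0 < z j ∧ z j < 1} := by
  have h1 : {z : κ → ℝ | ∀ j, 0 < z j ∧ z j < 1} = ⋂ j, {z : κ → ℝ | 0 < z j} ∩ {z | z j < 1} := by
    ext z
    simp
  rw [h1]
  exact MeasurableSet.iInter fun j => (measurableSet_lt measurable_const (by fun_prop)).inter
    (measurableSet_lt (by fun_prop) measurable_const)

lemma volume_box : volume {z : κ → ℝ | ∀ j, 0 < z j ∧ z j < 1} = 1 := by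
  have h1 : {z : κ → ℝ | ∀ j, 0 < z j ∧ z j < 1} = Set.pi Set.univ fun _ => Set.Ioo 0 1 := by
    ext z
    simp
  rw [h1, Real.volume_pi_Ioo]
  simp

end tools

variable {ι : Type} [Fintype ι]

lemma IsW.prod {τ : Type} [Fintype τ] {φ : τ → (ι → ℝ) → ENNReal} (h : ∀ t, IsW (φ t)) :
    IsW fun x => ∏ t, φ t x := by
  classical
  have h1 : ∀ s : Finset τ, IsW fun x => ∏ t ∈ s, φ t x := by
    intro s
    induction s using Finset.induction_on with
    | empty => simpa using IsW.one (ι := ι)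
    | insert t s ht ih =>
      simp only [Finset.prod_insert ht]
      exact (h t).mul ih
  exact h1 Finset.univ

lemma IsW.mon (L : List ι) : ∃ φ : (ι → ℝ) → ENNReal, IsW φ ∧
    ∀ x : ι → ℝ, (∀ i, 0 < x i) → φ x = ENNReal.ofReal (mon x L) := by
  induction L with
  | nil => exact ⟨fun _ => 1, IsW.one, fun x _ => by simp [Q54.KZ.mon]⟩
  | cons i L ih =>
    obtain ⟨φ, hφ, h⟩ := ih
    refine ⟨fun x => ENNReal.ofReal (x i) * φ x, (IsW.ofReal (IsAff.coord i)).mul hφ, fun x hx => ?_⟩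
    beta_reduce
    rw [h x hx, ← ENNReal.ofReal_mul (hx i).le]
    simp [Q54.KZ.mon]

omit [Fintype ι] in
lemma mon_pos {x : ι → ℝ} (hx : ∀ i, 0 < x i) (L : List ι) : 0 < mon x L := by
  induction L with
  | nil => simp [mon]
  | cons i L ih =>
    have h1 : mon x (i :: L) = x i * mon x L := by simp [mon]
    rw [h1]
    exact mul_pos (hx i) ih

section gadget

variable {F : MvPolynomial ι ℚ} {κ : Type} [Fintype κ] {o : ℝ → (κ → ℝ) → ℝ} {i : κ → ι}
  {l : κ → ℝ → (κ → ℝ) → ℝ} {L : κ → List ι} (ho : IsLin o) (hl : ∀ j, IsLin (l j))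
  (h : ∀ (x : ι → ℝ) (w : ℝ) (f : ℝ → (κ → ℝ) → ENNReal), Measurable (Function.uncurry f) →
    ∫⁻ y, f (o w y) (fun j => y j - x (i j) * l j w y) =
      ∫⁻ v, f (MvPolynomial.aeval x F * w + ∑ j, mon x (L j) * v j) v)

include ho hl h

/-- The reciprocal of the absolute value of a polynomial. -/
theorem isW_inv : ∃ φ : (ι → ℝ) → ENNReal, IsW φ ∧ ∀ x : ι → ℝ, MvPolynomial.aeval x F ≠ (0 : ℝ) →
    φ x = ENNReal.ofReal |(MvPolynomial.aeval x F : ℝ)⁻¹| := by
  let u : κ → (ι → ℝ) → (Unit ⊕ κ → ℝ) → ℝ := fun j x z =>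
    z (Sum.inr j) - x (i j) * l j (z (Sum.inl ())) fun j => z (Sum.inr j)
  have hu : ∀ j, IsBil (u j) := fun j => (IsBil.right (IsAff.coord _)).sub (IsBil.mul (i j) (hl j).aff_all)
  have h1 : IsBil fun (_ : ι → ℝ) (_ : Unit ⊕ κ → ℝ) => (1 : ℝ) := by
    simpa using IsBil.right (ι := ι) (IsAff.const (κ := Unit ⊕ κ) 1)
  let g : Bool ⊕ (κ ⊕ κ) → (ι → ℝ) → (Unit ⊕ κ → ℝ) → ℝ :=
    Sum.elim (fun b _ z => if b then o (z (Sum.inl ())) fun j => z (Sum.inr j)
      else 1 - o (z (Sum.inl ())) fun j => z (Sum.inr j))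
      (Sum.elim (fun j x z => u j x z) fun j x z => 1 - u j x z)
  have hg : ∀ t, IsBil (g t) := by
    rintro ((_ | _) | j | j)
    · have h2 := h1.sub (IsBil.right (ι := ι) ho.aff_all)
      simpa [g] using h2
    · have h2 := IsBil.right (ι := ι) ho.aff_all
      simpa [g] using h2
    · exact hu j
    · exact h1.sub (hu j)
  refine ⟨fun x => volume {z | ∀ t, 0 < g t x z}, ⟨_, inferInstance, _, inferInstance, g, hg, fun x => rfl⟩,
    fun x hF => ?_⟩
  beta_reduce
  let f : ℝ → (κ → ℝ) → ENNReal := fun s v => chi ((0 < s ∧ s < 1) ∧ ∀ j, 0 < v j ∧ v j < 1)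
  have hfm : MeasurableSet {z : ℝ × (κ → ℝ) | (0 < z.1 ∧ z.1 < 1) ∧ ∀ j, 0 < z.2 j ∧ z.2 j < 1} :=
    ((measurableSet_lt measurable_const measurable_fst).inter
      (measurableSet_lt measurable_fst measurable_const)).inter (measurableSet_box.preimage measurable_snd)
  have hf : Measurable (Function.uncurry f) := measurable_chi hfm
  have hS : {z : Unit ⊕ κ → ℝ | ∀ t, 0 < g t x z} = {z : Unit ⊕ κ → ℝ |
      (0 < o (z (Sum.inl ())) (fun j => z (Sum.inr j)) ∧ o (z (Sum.inl ())) (fun j => z (Sum.inr j)) < 1) ∧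
        ∀ j, 0 < u j x z ∧ u j x z < 1} := by
    ext z
    simp only [Set.mem_ofPred_eq, Sum.forall, Bool.forall_bool, g, Sum.elim_inl, Sum.elim_inr, if_true,
      Bool.false_eq_true, if_false, sub_pos]
    constructor
    · rintro ⟨⟨h1, h2⟩, h3, h4⟩
      exact ⟨⟨h2, h1⟩, fun j => ⟨h3 j, h4 j⟩⟩
    · rintro ⟨⟨h1, h2⟩, h3⟩
      exact ⟨⟨h2, h1⟩, fun j => (h3 j).1, fun j => (h3 j).2⟩
  have hom : Measurable fun z : Unit ⊕ κ → ℝ => o (z (Sum.inl ())) fun j => z (Sum.inr j) := ho.aff_all.continuous.measurable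
  have hum : Measurable fun (z : Unit ⊕ κ → ℝ) (j : κ) => u j x z := by
    rw [measurable_pi_iff]
    intro j
    exact (measurable_pi_apply _).sub ((hl j).aff_all.continuous.measurable.const_mul _)
  have hSm : MeasurableSet {z : Unit ⊕ κ → ℝ |
      (0 < o (z (Sum.inl ())) (fun j => z (Sum.inr j)) ∧ o (z (Sum.inl ())) (fun j => z (Sum.inr j)) < 1) ∧
        ∀ j, 0 < u j x z ∧ u j x z < 1} := hfm.preimage (hom.prodMk hum)
  rw [hS, ← lintegral_chi hSm, lintegral_sum (measurable_chi hSm)]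
  have h2 : ∀ a : Unit → ℝ, (∫⁻ y : κ → ℝ, chi
      ((0 < o ((Sum.elim a y : Unit ⊕ κ → ℝ) (Sum.inl ())) (fun j => (Sum.elim a y : Unit ⊕ κ → ℝ) (Sum.inr j)) ∧
        o ((Sum.elim a y : Unit ⊕ κ → ℝ) (Sum.inl ())) (fun j => (Sum.elim a y : Unit ⊕ κ → ℝ) (Sum.inr j)) < 1) ∧
        ∀ j, 0 < u j x (Sum.elim a y) ∧ u j x (Sum.elim a y) < 1)) =
      ∫⁻ v, f (MvPolynomial.aeval x F * a () + ∑ j, mon x (L j) * v j) v := fun a => h x (a ()) f hf
  simp only [h2]
  rw [lintegral_lintegral_swap]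
  · have h3 : ∀ v : κ → ℝ, (∫⁻ a : Unit → ℝ, f (MvPolynomial.aeval x F * a () + ∑ j, mon x (L j) * v j) v) =
        ENNReal.ofReal |(MvPolynomial.aeval x F : ℝ)⁻¹| * chi (∀ j, 0 < v j ∧ v j < 1) := by
      intro v
      let σ : ℝ := ∑ j, mon x (L j) * v j
      have h4 : ∀ a : Unit → ℝ, f (MvPolynomial.aeval x F * a () + σ) v =
          chi (0 < MvPolynomial.aeval x F * a () + σ ∧ MvPolynomial.aeval x F * a () + σ < 1) *
            chi (∀ j, 0 < v j ∧ v j < 1) := fun a => chi_and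
      have h5 : {a : Unit → ℝ | 0 < MvPolynomial.aeval x F * a () + σ ∧ MvPolynomial.aeval x F * a () + σ < 1} =
          {a : Unit → ℝ | a () ∈ (fun w : ℝ => (MvPolynomial.aeval x F : ℝ) * w) ⁻¹' Set.Ioo (-σ) (1 - σ)} := by
        ext a
        simp only [Set.mem_ofPred_eq, Set.mem_preimage, Set.mem_Ioo]
        constructor
        · rintro ⟨h6, h7⟩
          exact ⟨by linarith, by linarith⟩
        · rintro ⟨h6, h7⟩
          exact ⟨by linarith, by linarith⟩
      have hm : Measurable fun a : Unit → ℝ => (MvPolynomial.aeval x F : ℝ) * a () + σ := by fun_prop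
      have h6 : MeasurableSet {a : Unit → ℝ | 0 < MvPolynomial.aeval x F * a () + σ ∧
          MvPolynomial.aeval x F * a () + σ < 1} :=
        (measurableSet_lt measurable_const hm).inter (measurableSet_lt hm measurable_const)
      change ∫⁻ a : Unit → ℝ, f (MvPolynomial.aeval x F * a () + σ) v = _
      simp only [h4]
      rw [lintegral_mul_const _ (measurable_chi h6), lintegral_chi h6, h5, volume_unit,
        Real.volume_preimage_mul_left hF, Real.volume_Ioo]
      norm_num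
    simp only [h3]
    rw [lintegral_const_mul _ (measurable_chi measurableSet_box), lintegral_chi measurableSet_box, volume_box, mul_one]
  · have h3 : Measurable fun z : (Unit → ℝ) × (κ → ℝ) =>
        f (MvPolynomial.aeval x F * z.1 () + ∑ j, mon x (L j) * z.2 j) z.2 :=
      measurable_uncurry' hf (by fun_prop) measurable_snd
    exact h3.aemeasurable

/-- The simplex. -/
theorem isW_simplex : ∃ φ : (ι → ℝ) → ENNReal, IsW φ ∧ ∀ x : ι → ℝ, (∀ i, 0 < x i) →
    φ x = if 0 < (MvPolynomial.aeval x F : ℝ) then ENNReal.ofReal ((MvPolynomial.aeval x F : ℝ) ^ Fintype.card κ /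
      ((Fintype.card κ).factorial * ∏ j, mon x (L j))) else 0 := by
  let u : κ → (ι → ℝ) → (κ → ℝ) → ℝ := fun j x y => y j - x (i j) * l j 1 y
  have hu : ∀ j, IsBil (u j) := fun j => (IsBil.right (IsAff.coord _)).sub (IsBil.mul (i j) (hl j).aff_one)
  let g : Unit ⊕ κ → (ι → ℝ) → (κ → ℝ) → ℝ := Sum.elim (fun _ _ y => o 1 y) fun j x y => -u j x y
  have hg : ∀ t, IsBil (g t) := by
    rintro (_ | j)
    · exact IsBil.right ho.aff_one
    · exact (hu j).neg
  refine ⟨fun x => volume {y | ∀ t, 0 < g t x y}, ⟨_, inferInstance, _, inferInstance, g, hg, fun x => rfl⟩,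
    fun x hx => ?_⟩
  beta_reduce
  let f : ℝ → (κ → ℝ) → ENNReal := fun s v => chi ((∀ j, v j < 0) ∧ 0 < s)
  have hfm : MeasurableSet {z : ℝ × (κ → ℝ) | (∀ j, z.2 j < 0) ∧ 0 < z.1} := by
    have h1 : {z : ℝ × (κ → ℝ) | (∀ j, z.2 j < 0) ∧ 0 < z.1} = (⋂ j, {z : ℝ × (κ → ℝ) | z.2 j < 0}) ∩ {z | 0 < z.1} := by
      ext z
      simp
    rw [h1]
    exact (MeasurableSet.iInter fun j => measurableSet_lt (by fun_prop) measurable_const).inter
      (measurableSet_lt measurable_const measurable_fst)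
  have hf : Measurable (Function.uncurry f) := measurable_chi hfm
  have hS : {y : κ → ℝ | ∀ t, 0 < g t x y} = {y : κ → ℝ | (∀ j, u j x y < 0) ∧ 0 < o 1 y} := by
    ext y
    simp only [Set.mem_ofPred_eq, Sum.forall, g, Sum.elim_inl, Sum.elim_inr, neg_pos]
    constructor
    · rintro ⟨h1, h2⟩
      exact ⟨h2, h1 ()⟩
    · rintro ⟨h1, h2⟩
      exact ⟨fun _ => h2, h1⟩
  have hum : Measurable fun (y : κ → ℝ) (j : κ) => u j x y := measurable_noise hl
  have hSm : MeasurableSet {y : κ → ℝ | (∀ j, u j x y < 0) ∧ 0 < o 1 y} :=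
    hfm.preimage ((ho.measurable_right 1).prodMk hum)
  rw [hS, ← lintegral_chi hSm]
  have h2 : (∫⁻ y : κ → ℝ, chi ((∀ j, u j x y < 0) ∧ 0 < o 1 y)) =
      ∫⁻ v, f (MvPolynomial.aeval x F * 1 + ∑ j, mon x (L j) * v j) v := h x 1 f hf
  have h3 : MeasurableSet {v : κ → ℝ | (∀ j, v j < 0) ∧ 0 < (MvPolynomial.aeval x F : ℝ) * 1 + ∑ j, mon x (L j) * v j} :=
    hfm.preimage (Measurable.prodMk (by fun_prop) measurable_id)
  rw [h2, ← volume_simplex' (fun j => mon x (L j)) (fun j => mon_pos hx _)]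
  have h4 := lintegral_chi h3
  rw [mul_one] at h4
  simp only [mul_one]
  exact h4

end gadget

/-- **The indicator function of a polynomial inequality.** -/
theorem isW_poly (F : MvPolynomial ι ℚ) : ∃ φ : (ι → ℝ) → ENNReal, IsW φ ∧
    ∀ x : ι → ℝ, (∀ i, 0 < x i) → φ x = chi (0 < (MvPolynomial.aeval x F : ℝ)) := by
  obtain ⟨κ, _, o, i, l, L, ho, hl, h⟩ := exists_gadget F
  obtain ⟨α, hα, h1⟩ := isW_inv ho hl h
  obtain ⟨β, hβ, h2⟩ := isW_simplex ho hl h
  choose γ hγ h3 using fun j => IsW.mon (ι := ι) (L j)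
  let k := Fintype.card κ
  refine ⟨fun x => β x * α x ^ k * (∏ j, γ j x) * ENNReal.ofReal ((k.factorial : ℚ) : ℝ),
    ((hβ.mul (hα.pow k)).mul (IsW.prod hγ)).mul IsW.const, fun x hx => ?_⟩
  beta_reduce
  rw [h2 x hx]
  by_cases hF : 0 < (MvPolynomial.aeval x F : ℝ)
  · rw [if_pos hF, chi_pos hF, h1 x hF.ne']
    have h4 : ∏ j, γ j x = ENNReal.ofReal (∏ j, mon x (L j)) := by
      rw [ENNReal.ofReal_prod_of_nonneg fun j _ => (mon_pos hx _).le]
      exact Finset.prod_congr rfl fun j _ => h3 j x hx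
    have h5 : 0 < ∏ j, mon x (L j) := Finset.prod_pos fun j _ => mon_pos hx _
    have h6 : (0 : ℝ) < (k.factorial : ℝ) := by positivity
    have h7 : (0 : ℝ) < (MvPolynomial.aeval x F : ℝ) ^ k := by positivity
    rw [h4, abs_of_pos (inv_pos.2 hF), ← ENNReal.ofReal_pow (inv_pos.2 hF).le, ← ENNReal.ofReal_mul (by positivity),
      ← ENNReal.ofReal_mul (by positivity), ← ENNReal.ofReal_mul (by positivity)]
    rw [show ((k.factorial : ℚ) : ℝ) = (k.factorial : ℝ) by push_cast; rfl, inv_pow]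
    have h8 : (MvPolynomial.aeval x F : ℝ) ^ k / (k.factorial * ∏ j, mon x (L j)) *
        ((MvPolynomial.aeval x F : ℝ) ^ k)⁻¹ * (∏ j, mon x (L j)) * k.factorial = 1 := by
      field_simp
    rw [h8, ENNReal.ofReal_one]
  · rw [if_neg hF, chi_neg hF]
    simp

/-- The indicator function of a region given by polynomial inequalities in the positive orthant. -/
theorem isW_list (ps : List (MvPolynomial ι ℚ)) :
    IsW fun x : ι → ℝ => chi ((∀ i, 0 < x i) ∧ ∀ p ∈ ps, 0 < (MvPolynomial.aeval x p : ℝ)) := by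
  classical
  induction ps with
  | nil =>
    have h1 := IsW.ind (ι := ι) (a := fun i x => x i) fun i => IsAff.coord i
    have h2 : (fun x : ι → ℝ => chi ((∀ i, 0 < x i) ∧ ∀ p ∈ ([] : List (MvPolynomial ι ℚ)),
        0 < (MvPolynomial.aeval x p : ℝ))) = fun x : ι → ℝ => if ∀ i, 0 < x i then 1 else 0 := by
      funext x
      by_cases hx : ∀ i, 0 < x i
      · rw [if_pos hx, chi_pos ⟨hx, by simp⟩]
      · rw [if_neg hx, chi_neg fun h => hx h.1]
    rw [h2]
    exact h1
  | cons p ps ih =>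
    obtain ⟨φ, hφ, h⟩ := isW_poly p
    have h2 : (fun x : ι → ℝ => chi ((∀ i, 0 < x i) ∧ ∀ q ∈ p :: ps, 0 < (MvPolynomial.aeval x q : ℝ))) =
        fun x => chi ((∀ i, 0 < x i) ∧ ∀ q ∈ ps, 0 < (MvPolynomial.aeval x q : ℝ)) * φ x := by
      funext x
      by_cases hx : ∀ i, 0 < x i
      · rw [h x hx, ← chi_and]
        congr 1
        simp only [List.forall_mem_cons]
        exact propext ⟨fun h3 => ⟨⟨h3.1, h3.2.2⟩, h3.2.1⟩, fun h3 => ⟨h3.1.1, h3.2, h3.1.2⟩⟩
      · rw [chi_neg fun h => hx h.1, chi_neg fun h => hx h.1, zero_mul]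
    rw [h2]
    exact ih.mul hφ

end Q54.KZ
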