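import Pool.Agent.Q54.KZ.Ort

/-!
# Absolutely convergent integrals of rational functions
-/

set_option autoImplicit false

namespace Q54.KZ

open MeasureTheory

/-- The finite volumes of the regions given by bilinear inequalities. -/
def vols : Set ℝ :=
  {v | ∃ (n m r : ℕ) (T : Fin r → Fin (n + 1) → Fin (m + 1) → ℤ), volume (reg T) ≠ ⊤ ∧ v = (volume (reg T)).toReal}

variable {ι : Type} [Fintype ι]

lemma toReal_mem (ps : List (MvPolynomial ι ℚ))
    (h : volume {x : ι → ℝ | ∀ p ∈ ps, 0 < (MvPolynomial.aeval x p : ℝ)} ≠ ⊤) :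
    (volume {x : ι → ℝ | ∀ p ∈ ps, 0 < (MvPolynomial.aeval x p : ℝ)}).toReal ∈ AddSubgroup.closure vols := by
  obtain ⟨S, _, n, m, r, T, h1⟩ := exists_reg ps
  have h2 : ∀ s, volume (reg (T s)) ≠ ⊤ := by
    intro s h3
    refine h ?_
    rw [h1]
    exact ENNReal.sum_eq_top.2 ⟨s, Finset.mem_univ s, h3⟩
  rw [h1, ENNReal.toReal_sum fun s _ => h2 s]
  exact AddSubgroup.sum_mem _ fun s _ => AddSubgroup.subset_closure ⟨_, _, _, _, h2 s, rfl⟩

/-- The region under the graph of a rational function. -/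
lemma lintegral_quot (ps : List (MvPolynomial ι ℚ)) (P Q : MvPolynomial ι ℚ) :
    ∫⁻ x in {x : ι → ℝ | ∀ p ∈ ps, 0 < (MvPolynomial.aeval x p : ℝ)},
      ENNReal.ofReal (MvPolynomial.aeval x P / MvPolynomial.aeval x Q : ℝ) =
    volume {z : ι ⊕ Unit → ℝ | ∀ p ∈ (MvPolynomial.X (Sum.inr ()) ::
      (MvPolynomial.rename Sum.inl (P * Q) - MvPolynomial.X (Sum.inr ()) * MvPolynomial.rename Sum.inl (Q ^ 2)) ::
        ps.map (MvPolynomial.rename Sum.inl) : List (MvPolynomial (ι ⊕ Unit) ℚ)), 0 < (MvPolynomial.aeval z p : ℝ)} := by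
  rw [← lintegral_indicator (measurableSet_poly ps), ← lintegral_chi (measurableSet_poly _),
    lintegral_sum (measurable_chi (measurableSet_poly _))]
  refine lintegral_congr fun a => ?_
  have h1 : ∀ (b : Unit → ℝ) (p : MvPolynomial ι ℚ), (MvPolynomial.aeval (Sum.elim a b : ι ⊕ Unit → ℝ)
      (MvPolynomial.rename Sum.inl p) : ℝ) = MvPolynomial.aeval a p := by
    intro b p
    rw [MvPolynomial.aeval_rename]
    rfl
  have h2 : ∀ b : Unit → ℝ, (∀ p ∈ (MvPolynomial.X (Sum.inr ()) ::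
      (MvPolynomial.rename Sum.inl (P * Q) - MvPolynomial.X (Sum.inr ()) * MvPolynomial.rename Sum.inl (Q ^ 2)) ::
        ps.map (MvPolynomial.rename Sum.inl) : List (MvPolynomial (ι ⊕ Unit) ℚ)),
          0 < (MvPolynomial.aeval (Sum.elim a b : ι ⊕ Unit → ℝ) p : ℝ)) ↔
      (∀ p ∈ ps, 0 < (MvPolynomial.aeval a p : ℝ)) ∧ b () ∈ Set.Ioo 0 (MvPolynomial.aeval a P / MvPolynomial.aeval a Q : ℝ) := by
    intro b
    simp only [List.forall_mem_cons, List.mem_map, forall_exists_index, and_imp, forall_apply_eq_imp_iff₂, h1,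
      map_sub, map_mul, MvPolynomial.aeval_X, Sum.elim_inr, Set.mem_Ioo]
    rw [← and_assoc, and_comm]
    refine and_congr_right fun _ => and_congr_right fun hb => ?_
    rw [map_pow, sub_pos]
    by_cases hQ : (MvPolynomial.aeval a Q : ℝ) = 0
    · rw [hQ]
      simp only [ne_eq, OfNat.ofNat_ne_zero, not_false_eq_true, zero_pow, mul_zero, lt_self_iff_false, div_zero,
        false_iff, not_lt]
      exact hb.le
    · have h3 : 0 < (MvPolynomial.aeval a Q : ℝ) ^ 2 := by positivity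
      have h4 : (MvPolynomial.aeval a P / MvPolynomial.aeval a Q : ℝ) =
          (MvPolynomial.aeval a P * MvPolynomial.aeval a Q) / (MvPolynomial.aeval a Q) ^ 2 := by
        field_simp
      rw [h4, lt_div_iff₀ h3]
  by_cases ha : ∀ p ∈ ps, 0 < (MvPolynomial.aeval a p : ℝ)
  · rw [Set.indicator_of_mem (show a ∈ {x : ι → ℝ | ∀ p ∈ ps, 0 < (MvPolynomial.aeval x p : ℝ)} from ha)]
    have h3 : ∀ b : Unit → ℝ, (∀ p ∈ (MvPolynomial.X (Sum.inr ()) ::
      (MvPolynomial.rename Sum.inl (P * Q) - MvPolynomial.X (Sum.inr ()) * MvPolynomial.rename Sum.inl (Q ^ 2)) ::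
        ps.map (MvPolynomial.rename Sum.inl) : List (MvPolynomial (ι ⊕ Unit) ℚ)),
          0 < (MvPolynomial.aeval (Sum.elim a b : ι ⊕ Unit → ℝ) p : ℝ)) ↔
          b () ∈ Set.Ioo 0 (MvPolynomial.aeval a P / MvPolynomial.aeval a Q : ℝ) := fun b =>
      (h2 b).trans ⟨fun h => h.2, fun h => ⟨ha, h⟩⟩
    simp only [h3]
    rw [lintegral_chi, volume_unit, Real.volume_Ioo, sub_zero]
    exact measurableSet_Ioo.preimage (measurable_pi_apply ())
  · rw [Set.indicator_of_notMem (show a ∉ {x : ι → ℝ | ∀ p ∈ ps, 0 < (MvPolynomial.aeval x p : ℝ)} from ha)]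
    have h3 : ∀ b : Unit → ℝ, chi (∀ p ∈ (MvPolynomial.X (Sum.inr ()) ::
      (MvPolynomial.rename Sum.inl (P * Q) - MvPolynomial.X (Sum.inr ()) * MvPolynomial.rename Sum.inl (Q ^ 2)) ::
        ps.map (MvPolynomial.rename Sum.inl) : List (MvPolynomial (ι ⊕ Unit) ℚ)),
          0 < (MvPolynomial.aeval (Sum.elim a b : ι ⊕ Unit → ℝ) p : ℝ)) = 0 := fun b =>
      chi_neg fun h => ha ((h2 b).1 h).1
    simp only [h3, lintegral_zero]

/-- Integrals over regions given by strict inequalities. -/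
theorem integral_mem (ps : List (MvPolynomial ι ℚ)) (P Q : MvPolynomial ι ℚ)
    (h : IntegrableOn (fun x : ι → ℝ => (MvPolynomial.aeval x P / MvPolynomial.aeval x Q : ℝ))
      {x : ι → ℝ | ∀ p ∈ ps, 0 < (MvPolynomial.aeval x p : ℝ)}) :
    ∫ x in {x : ι → ℝ | ∀ p ∈ ps, 0 < (MvPolynomial.aeval x p : ℝ)},
      (MvPolynomial.aeval x P / MvPolynomial.aeval x Q : ℝ) ∈ AddSubgroup.closure vols := by
  rw [integral_eq_lintegral_pos_part_sub_lintegral_neg_part h]
  have h1 : ∀ x : ι → ℝ, -(MvPolynomial.aeval x P / MvPolynomial.aeval x Q : ℝ) =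
      MvPolynomial.aeval x (-P) / MvPolynomial.aeval x Q := fun x => by rw [map_neg, neg_div]
  simp only [h1]
  have h2 : ∀ R : MvPolynomial ι ℚ, IntegrableOn (fun x : ι → ℝ => (MvPolynomial.aeval x R / MvPolynomial.aeval x Q : ℝ))
      {x : ι → ℝ | ∀ p ∈ ps, 0 < (MvPolynomial.aeval x p : ℝ)} →
      (∫⁻ x in {x : ι → ℝ | ∀ p ∈ ps, 0 < (MvPolynomial.aeval x p : ℝ)},
        ENNReal.ofReal (MvPolynomial.aeval x R / MvPolynomial.aeval x Q : ℝ)).toReal ∈ AddSubgroup.closure vols := by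
    intro R hR
    have h3 : (∫⁻ x in {x : ι → ℝ | ∀ p ∈ ps, 0 < (MvPolynomial.aeval x p : ℝ)},
        ENNReal.ofReal (MvPolynomial.aeval x R / MvPolynomial.aeval x Q : ℝ)) ≠ ⊤ := by
      have h4 := hR.lintegral_lt_top
      exact h4.ne
    rw [lintegral_quot] at h3 ⊢
    exact toReal_mem _ h3
  refine AddSubgroup.sub_mem _ (h2 P h) (h2 (-P) ?_)
  have h3 := Integrable.neg h
  refine h3.congr (Filter.Eventually.of_forall fun x => ?_)
  exact h1 x

end Q54.KZ
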