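import Pool.Agent.Q54.KZ.Fib

/-!
# Every period is a first moment
-/

set_option autoImplicit false

namespace Q54.KZ

open MeasureTheory

lemma exists_fin {ι : Type} [Fintype ι] (i : ι) : ∃ (n : ℕ) (e : ι ≃ Fin (n + 1)), e i = 0 := by
  classical
  have : Nonempty ι := ⟨i⟩
  obtain ⟨n, hn⟩ := Nat.exists_eq_succ_of_ne_zero (Fintype.card_ne_zero (α := ι))
  have e : ι ≃ Fin (n + 1) := Fintype.equivFinOfCardEq hn
  exact ⟨n, e.trans (Equiv.swap (e i) 0), by simp⟩

lemma lint_pos : ∫⁻ s in Set.Ioo (1 : ℝ) 2, ENNReal.ofReal (s - 1) = ENNReal.ofReal (1 / 2) := by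
  rw [← ofReal_integral_eq_lintegral_ofReal]
  · rw [← integral_Ioc_eq_integral_Ioo, ← intervalIntegral.integral_of_le one_le_two]
    congr 1
    rw [intervalIntegral.integral_sub intervalIntegral.intervalIntegrable_id intervalIntegrable_const]
    simp
    norm_num
  · exact (Continuous.integrableOn_Icc (by fun_prop)).mono_set Set.Ioo_subset_Icc_self
  · refine (ae_restrict_iff' measurableSet_Ioo).2 (Filter.Eventually.of_forall fun u hu => ?_)
    simpa using hu.1.le

lemma lint_neg : ∫⁻ s in Set.Ioo (0 : ℝ) 1, ENNReal.ofReal (-(s - 1)) = ENNReal.ofReal (1 / 2) := by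
  rw [← ofReal_integral_eq_lintegral_ofReal]
  · rw [← integral_Ioc_eq_integral_Ioo, ← intervalIntegral.integral_of_le zero_le_one]
    congr 1
    rw [intervalIntegral.integral_neg, intervalIntegral.integral_sub intervalIntegral.intervalIntegrable_id intervalIntegrable_const]
    simp
    norm_num
  · exact (Continuous.integrableOn_Icc (by fun_prop)).mono_set Set.Ioo_subset_Icc_self
  · refine (ae_restrict_iff' measurableSet_Ioo).2 (Filter.Eventually.of_forall fun u hu => ?_)
    simpa using hu.2.le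

lemma lint_zero : ∫⁻ s in Set.Ioo (0 : ℝ) 1, ENNReal.ofReal (s - 1) = 0 := by
  have h1 : ∫⁻ s in Set.Ioo (0 : ℝ) 1, ENNReal.ofReal (s - 1) = ∫⁻ s in Set.Ioo (0 : ℝ) 1, 0 :=
    setLIntegral_congr_fun measurableSet_Ioo fun s hs => ENNReal.ofReal_of_nonpos (by linarith [hs.2])
  rw [h1, lintegral_zero]

lemma lint_zero' : ∫⁻ s in Set.Ioo (1 : ℝ) 2, ENNReal.ofReal (-(s - 1)) = 0 := by
  have h1 : ∫⁻ s in Set.Ioo (1 : ℝ) 2, ENNReal.ofReal (-(s - 1)) = ∫⁻ s in Set.Ioo (1 : ℝ) 2, 0 :=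
    setLIntegral_congr_fun measurableSet_Ioo fun s hs => ENNReal.ofReal_of_nonpos (by linarith [hs.1])
  rw [h1, lintegral_zero]

lemma lint_le {c : ℝ} (hc : c = 0 ∨ c = 1) : ∫⁻ s in Set.Ioo c (c + 1), ‖s - 1‖ₑ ≤ 1 := by
  have h1 : ∫⁻ s in Set.Ioo c (c + 1), ‖s - 1‖ₑ ≤ ∫⁻ s in Set.Ioo c (c + 1), 1 := by
    refine setLIntegral_mono measurable_const fun s hs => ?_
    rw [← ofReal_norm, ← ENNReal.ofReal_one]
    refine ENNReal.ofReal_le_ofReal ?_
    rw [Real.norm_eq_abs, abs_le]
    rcases hc with rfl | rfl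
    · constructor <;> linarith [hs.1, hs.2]
    · constructor <;> linarith [hs.1, hs.2]
  refine h1.trans ?_
  simp

lemma chi_zero_or_one (P : Prop) : chi P = 0 ∨ chi P = 1 := by
  by_cases h : P
  · exact Or.inr (chi_pos h)
  · exact Or.inl (chi_neg h)

/-- The elements of `bas` as volumes of regions given by bilinear inequalities. -/
lemma bas_eq {v : ℝ} (hv : v ∈ bas) : ∃ (n m r : ℕ) (T : Fin r → Fin (n + 1) → Fin (m + 1) → ℤ),
    (∀ x, volume {y | (x, y) ∈ reg T} = 0 ∨ volume {y | (x, y) ∈ reg T} = 1) ∧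
    volume (reg T) ≠ ⊤ ∧ v = (volume (reg T)).toReal := by
  obtain ⟨ι, _, ps, h1, rfl⟩ := hv
  let e := Fintype.equivFin ι
  have h2 : volume (pos (ps.map (MvPolynomial.rename e))) = volume (pos ps) := by
    rw [← volume_reindex e (pos (ps.map (MvPolynomial.rename e)))]
    congr 1
    ext z
    have h10 : ∀ p : MvPolynomial ι ℚ, (MvPolynomial.aeval (fun j => z (e.symm j)) (MvPolynomial.rename e p) : ℝ) =
        MvPolynomial.aeval z p := by
      intro p
      rw [MvPolynomial.aeval_rename]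
      congr 2
      funext j
      simp
    simp only [pos, Set.mem_ofPred_eq, List.mem_map, forall_exists_index, and_imp, forall_apply_eq_imp_iff₂, h10]
    refine and_congr_left fun _ => ?_
    exact Equiv.forall_congr_right (q := fun j => 0 < z j) e.symm
  obtain ⟨m, r, T, h7⟩ := exists_reg_fibre (ps.map (MvPolynomial.rename e))
  have h3 := lintegral_reg h7 (g := fun _ => 1) measurable_const
  simp only [lintegral_const, Measure.restrict_apply_univ, one_mul] at h3
  refine ⟨_, m, r, T, fun x => ?_, ?_, ?_⟩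
  · rw [h7]
    exact chi_zero_or_one _
  · rw [h3, h2]
    exact h1
  · rw [h3, h2]

/-- **Every period is the first moment of a region given by bilinear inequalities.** -/
theorem exists_moment {v : ℝ} (hv : v ∈ AddSubgroup.closure bas) :
    ∃ (n m r : ℕ) (T : Fin r → Fin (n + 1 + 1) → Fin (m + 1) → ℤ),
      (∀ x, volume {y | (x, y) ∈ reg T} = 0 ∨ volume {y | (x, y) ∈ reg T} = 1) ∧
      IntegrableOn (fun z : (Fin (n + 1) → ℝ) × (Fin m → ℝ) => z.1 0) (reg T) ∧ ∫ z in reg T, z.1 0 = v := by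
  obtain ⟨a, ha, b, hb, rfl⟩ := exists_sub hv
  have hb2 := bas_add hb hb
  have ha2 := bas_add ha ha
  obtain ⟨ι, _, ps, h1, h1'⟩ := hb2
  obtain ⟨ι', _, qs, h2, h2'⟩ := ha2
  obtain ⟨ps', h3⟩ := exists_pad (ι' := ι') ps
  obtain ⟨qs', h4⟩ := exists_pad' (ι := ι) qs
  rw [← h3] at h1 h1'
  rw [← h4] at h2 h2'
  obtain ⟨κ, _, rs, h5⟩ := exists_merge ps' qs'
  obtain ⟨n, e, he⟩ := exists_fin (Sum.inl (Sum.inr ()) : ((ι ⊕ ι') ⊕ Unit) ⊕ κ)
  have h6 : ∀ g : ℝ → ENNReal, ∫⁻ z in pos (rs.map (MvPolynomial.rename e)), g (z 0) =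
      ∫⁻ z in pos rs, g (z (Sum.inl (Sum.inr ()))) := by
    intro g
    have h7 := volume_preserving_arrowCongr' e (MeasurableEquiv.refl ℝ) (MeasurePreserving.id volume)
    have h8 := h7.setLIntegral_comp_preimage_emb
      (MeasurableEquiv.arrowCongr' e (MeasurableEquiv.refl ℝ)).measurableEmbedding
      (fun z => g (z 0)) (pos (rs.map (MvPolynomial.rename e)))
    have h9 : (MeasurableEquiv.arrowCongr' e (MeasurableEquiv.refl ℝ)) ⁻¹' pos (rs.map (MvPolynomial.rename e)) =
        pos rs := by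
      ext z
      have h10 : ∀ p : MvPolynomial (((ι ⊕ ι') ⊕ Unit) ⊕ κ) ℚ, (MvPolynomial.aeval (fun j => z (e.symm j)) (MvPolynomial.rename e p) : ℝ) =
          MvPolynomial.aeval z p := by
        intro p
        rw [MvPolynomial.aeval_rename]
        congr 2
        funext j
        simp
      change (fun j => z (e.symm j)) ∈ pos (rs.map (MvPolynomial.rename e)) ↔ z ∈ pos rs
      simp only [pos, Set.mem_ofPred_eq, List.mem_map, forall_exists_index, and_imp, forall_apply_eq_imp_iff₂, h10]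
      refine and_congr_left fun _ => ?_
      exact Equiv.forall_congr_right (q := fun j => 0 < z j) e.symm
    rw [h9] at h8
    rw [← h8]
    refine lintegral_congr fun z => ?_
    have h10 : (MeasurableEquiv.arrowCongr' e (MeasurableEquiv.refl ℝ)) z 0 = z (Sum.inl (Sum.inr ())) := by
      rw [← he]
      change z (e.symm (e _)) = _
      rw [Equiv.symm_apply_apply]
    rw [h10]
  obtain ⟨m, r, T, h7⟩ := exists_reg_fibre (rs.map (MvPolynomial.rename e))
  obtain ⟨T', h8⟩ := exists_shift T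
  have h9 : ∀ g : ℝ → ENNReal, Measurable g → ∫⁻ z in reg T', g (z.1 0) =
      (∫⁻ s in Set.Ioo 0 1, g (s - 1)) * volume (pos ps') + (∫⁻ s in Set.Ioo 1 2, g (s - 1)) * volume (pos qs') := by
    intro g hg
    have hg1 : Measurable fun s : ℝ => g (s - 1) := hg.comp (by fun_prop)
    rw [lintegral_shift h8, lintegral_reg h7 (g := fun x => g (x 0 - 1)) (hg1.comp (measurable_pi_apply _)),
      h6 fun s => g (s - 1), h5 (fun s => g (s - 1)) hg1]
  have hint : IntegrableOn (fun z : (Fin (n + 1) → ℝ) × (Fin m → ℝ) => z.1 0) (reg T') := by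
    refine ⟨by fun_prop, ?_⟩
    have h10 := h9 (fun s => ‖s‖ₑ) (by fun_prop)
    rw [HasFiniteIntegral, h10]
    refine ENNReal.add_lt_top.2 ⟨ENNReal.mul_lt_top ?_ (lt_top_iff_ne_top.2 h1), ENNReal.mul_lt_top ?_ (lt_top_iff_ne_top.2 h2)⟩
    · have h11 := lint_le (c := 0) (Or.inl rfl)
      rw [zero_add] at h11
      exact lt_of_le_of_lt h11 ENNReal.one_lt_top
    · have h11 := lint_le (c := 1) (Or.inr rfl)
      rw [one_add_one_eq_two] at h11
      exact lt_of_le_of_lt h11 ENNReal.one_lt_top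
  refine ⟨n, m, r, T', fun x => ?_, hint, ?_⟩
  · simp only [h8, h7]
    exact chi_zero_or_one _
  rw [integral_eq_lintegral_pos_part_sub_lintegral_neg_part hint, h9 ENNReal.ofReal ENNReal.measurable_ofReal,
    h9 (fun s => ENNReal.ofReal (-s)) (by fun_prop), lint_pos, lint_neg, lint_zero, lint_zero', zero_mul, zero_mul,
    zero_add, add_zero, ENNReal.toReal_mul, ENNReal.toReal_mul, ← h1', ← h2', ENNReal.toReal_ofReal (by norm_num)]
  ring

end Q54.KZ
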