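import Pool.Agent.Q54.KZ.Uni

/-!
# The sum of two volumes, and first moments
-/

set_option autoImplicit false

namespace Q54.KZ

open MeasureTheory

variable {ι : Type} [Fintype ι]

lemma IsD.prod {α : Type} (l : List α) {φ : α → (ι → ℝ) → ENNReal} (h : ∀ a, IsD (φ a)) :
    IsD fun x => (l.map fun a => φ a x).prod := by
  induction l with
  | nil => simpa using IsD.one (ι := ι)
  | cons a l ih => simpa only [List.map_cons, List.prod_cons] using (h a).mul ih

omit [Fintype ι] in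
lemma measurable_inl {κ : Type} : Measurable fun (z : ι ⊕ κ → ℝ) (i : ι) => z (Sum.inl i) := by
  fun_prop

lemma lintegral_pos {κ : Type} [Fintype κ] (ps : List (MvPolynomial (ι ⊕ κ) ℚ)) {g : (ι → ℝ) → ENNReal} (hg : Measurable g) :
    ∫⁻ z in pos ps, g (fun i => z (Sum.inl i)) =
      ∫⁻ x, g x * volume {t : κ → ℝ | (Sum.elim x t : ι ⊕ κ → ℝ) ∈ pos ps} := by
  rw [← lintegral_indicator (measurableSet_pos' ps)]
  have h1 : (pos ps).indicator (fun z : ι ⊕ κ → ℝ => g (fun i => z (Sum.inl i))) =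
      fun z => g (fun i => z (Sum.inl i)) * chi (z ∈ pos ps) := by
    funext z
    by_cases hz : z ∈ pos ps
    · rw [Set.indicator_of_mem hz, chi_pos hz, mul_one]
    · rw [Set.indicator_of_notMem hz, chi_neg hz, mul_zero]
  have hm : Measurable fun z : ι ⊕ κ → ℝ => chi (z ∈ pos ps) := measurable_chi (measurableSet_pos' ps)
  have hf : Measurable fun z : ι ⊕ κ → ℝ => g (fun i => z (Sum.inl i)) * chi (z ∈ pos ps) :=
    (hg.comp measurable_inl).mul hm
  rw [h1, lintegral_sum hf]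
  refine lintegral_congr fun x => ?_
  have hm' : MeasurableSet {t : κ → ℝ | (Sum.elim x t : ι ⊕ κ → ℝ) ∈ pos ps} :=
    (measurableSet_pos' ps).preimage (measurable_elim measurable_const measurable_id)
  rw [← lintegral_chi hm', ← lintegral_const_mul _ (measurable_chi hm')]
  rfl

lemma IsD.lintegral {φ : (ι → ℝ) → ENNReal} (h : IsD φ) :
    ∃ (κ : Type) (_ : Fintype κ) (ps : List (MvPolynomial (ι ⊕ κ) ℚ)), ∀ g : (ι → ℝ) → ENNReal, Measurable g →
      ∫⁻ z in pos ps, g (fun i => z (Sum.inl i)) = ∫⁻ x, g x * (Q54.KZ.chi (∀ i, 0 < x i) * φ x) := by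
  obtain ⟨κ, _, ps, h1⟩ := h
  refine ⟨κ, inferInstance, ps, fun g hg => ?_⟩
  rw [lintegral_pos ps hg]
  refine lintegral_congr_ae ?_
  filter_upwards [h1] with x h2
  by_cases hx : ∀ i, 0 < x i
  · rw [chi_pos hx, one_mul, h2 hx]
  · have h3 : {t : κ → ℝ | (Sum.elim x t : ι ⊕ κ → ℝ) ∈ pos ps} = ∅ := by
      ext t
      simp only [Set.mem_ofPred_eq, Set.mem_empty_iff_false, iff_false]
      exact fun h4 => hx fun i => h4.1 (Sum.inl i)
    rw [chi_neg hx, zero_mul, h3, measure_empty]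

/-- The function which is the indicator function of the first region for `s < 1` and of the second one for
`1 < s < 2`. -/
noncomputable def mer (ps qs : List (MvPolynomial ι ℚ)) (w : ι ⊕ Unit → ℝ) : ENNReal :=
  chi (0 < (MvPolynomial.aeval w (2 - MvPolynomial.X (Sum.inr ()) : MvPolynomial (ι ⊕ Unit) ℚ) : ℝ)) *
    ((ps.map fun p => chi (0 < (MvPolynomial.aeval w (MvPolynomial.X (Sum.inr ()) - 1 : MvPolynomial (ι ⊕ Unit) ℚ) : ℝ) ∨
      0 < (MvPolynomial.aeval w (MvPolynomial.rename Sum.inl p : MvPolynomial (ι ⊕ Unit) ℚ) : ℝ))).prod *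
    (qs.map fun p => chi (0 < (MvPolynomial.aeval w (1 - MvPolynomial.X (Sum.inr ()) : MvPolynomial (ι ⊕ Unit) ℚ) : ℝ) ∨
      0 < (MvPolynomial.aeval w (MvPolynomial.rename Sum.inl p : MvPolynomial (ι ⊕ Unit) ℚ) : ℝ))).prod)

lemma isD_mer (ps qs : List (MvPolynomial ι ℚ)) : IsD (mer ps qs) :=
  (IsD.chi _).mul ((IsD.prod ps fun _ => IsD.or _ _).mul (IsD.prod qs fun _ => IsD.or _ _))

lemma prod_chi {α : Type} (l : List α) (P : α → Prop) : (l.map fun a => chi (P a)).prod = chi (∀ a ∈ l, P a) := by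
  induction l with
  | nil => simp [chi_pos]
  | cons a l ih => rw [List.map_cons, List.prod_cons, ih, ← chi_and, List.forall_mem_cons]

omit [Fintype ι] in
lemma mer_eq (ps qs : List (MvPolynomial ι ℚ)) (w : ι ⊕ Unit → ℝ) (hw : w (Sum.inr ()) ≠ 1) :
    chi (∀ i, 0 < w i) * mer ps qs w =
      chi (w (Sum.inr ()) ∈ Set.Ioo (0 : ℝ) 1) * chi ((fun i => w (Sum.inl i)) ∈ pos ps) +
      chi (w (Sum.inr ()) ∈ Set.Ioo (1 : ℝ) 2) * chi ((fun i => w (Sum.inl i)) ∈ pos qs) := by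
  have h1 : ∀ p : MvPolynomial ι ℚ, (MvPolynomial.aeval w (MvPolynomial.rename Sum.inl p : MvPolynomial (ι ⊕ Unit) ℚ) : ℝ) =
      MvPolynomial.aeval (fun i => w (Sum.inl i)) p := by
    intro p
    rw [MvPolynomial.aeval_rename]
    rfl
  rw [mer, prod_chi, prod_chi]
  simp only [← chi_and, map_sub, map_ofNat, map_one, MvPolynomial.aeval_X, h1, sub_pos, pos, Set.mem_ofPred_eq, Set.mem_Ioo,
    Sum.forall]
  rcases lt_or_gt_of_ne hw with h2 | h2
  · have h3 : chi ((1 < w (Sum.inr ()) ∧ w (Sum.inr ()) < 2) ∧ (∀ i, 0 < w (Sum.inl i)) ∧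
        ∀ p ∈ qs, 0 < (MvPolynomial.aeval (fun i => w (Sum.inl i)) p : ℝ)) = 0 := chi_neg fun h => by linarith [h.1.1]
    rw [h3, add_zero]
    congr 1
    refine propext ⟨?_, ?_⟩
    · rintro ⟨⟨h4, h5⟩, h6, h7, h8⟩
      exact ⟨⟨h5 (), h2⟩, h4, fun p hp => (h7 p hp).resolve_left (by linarith)⟩
    · rintro ⟨⟨h4, h5⟩, h6, h7⟩
      exact ⟨⟨h6, fun _ => h4⟩, by linarith, fun p hp => Or.inr (h7 p hp), fun p hp => Or.inl h2⟩
  · have h3 : chi ((0 < w (Sum.inr ()) ∧ w (Sum.inr ()) < 1) ∧ (∀ i, 0 < w (Sum.inl i)) ∧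
        ∀ p ∈ ps, 0 < (MvPolynomial.aeval (fun i => w (Sum.inl i)) p : ℝ)) = 0 := chi_neg fun h => by linarith [h.1.2]
    rw [h3, zero_add]
    congr 1
    refine propext ⟨?_, ?_⟩
    · rintro ⟨⟨h4, h5⟩, h6, h7, h8⟩
      exact ⟨⟨h2, h6⟩, h4, fun p hp => (h8 p hp).resolve_left (by linarith)⟩
    · rintro ⟨⟨h4, h5⟩, h6, h7⟩
      exact ⟨⟨h6, fun _ => by linarith⟩, h5, fun p hp => Or.inl h2, fun p hp => Or.inr (h7 p hp)⟩

lemma lintegral_slice (ps : List (MvPolynomial ι ℚ)) (c d : ℝ) {g : ℝ → ENNReal} (hg : Measurable g) :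
    ∫⁻ w : ι ⊕ Unit → ℝ, g (w (Sum.inr ())) * (chi (w (Sum.inr ()) ∈ Set.Ioo c d) *
      chi ((fun i => w (Sum.inl i)) ∈ pos ps)) = (∫⁻ s in Set.Ioo c d, g s) * volume (pos ps) := by
  have hm1 : Measurable fun w : ι ⊕ Unit → ℝ => chi (w (Sum.inr ()) ∈ Set.Ioo c d) :=
    measurable_chi (measurableSet_Ioo.preimage (measurable_pi_apply _))
  have hm2 : Measurable fun w : ι ⊕ Unit → ℝ => chi ((fun i => w (Sum.inl i)) ∈ pos ps) :=
    measurable_chi ((measurableSet_pos' ps).preimage measurable_inl)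
  have hf : Measurable fun w : ι ⊕ Unit → ℝ => g (w (Sum.inr ())) * (chi (w (Sum.inr ()) ∈ Set.Ioo c d) *
      chi ((fun i => w (Sum.inl i)) ∈ pos ps)) := (hg.comp (measurable_pi_apply _)).mul (hm1.mul hm2)
  rw [lintegral_sum hf]
  have h1 : ∀ x : ι → ℝ, (∫⁻ s : Unit → ℝ, g ((Sum.elim x s : ι ⊕ Unit → ℝ) (Sum.inr ())) *
      (chi ((Sum.elim x s : ι ⊕ Unit → ℝ) (Sum.inr ()) ∈ Set.Ioo c d) *
        chi ((fun i => (Sum.elim x s : ι ⊕ Unit → ℝ) (Sum.inl i)) ∈ pos ps))) =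
      (∫⁻ s in Set.Ioo c d, g s) * chi (x ∈ pos ps) := by
    intro x
    have h2 : ∀ s : Unit → ℝ, g ((Sum.elim x s : ι ⊕ Unit → ℝ) (Sum.inr ())) *
      (chi ((Sum.elim x s : ι ⊕ Unit → ℝ) (Sum.inr ()) ∈ Set.Ioo c d) *
        chi ((fun i => (Sum.elim x s : ι ⊕ Unit → ℝ) (Sum.inl i)) ∈ pos ps)) =
        (fun t => (Set.Ioo c d).indicator g t * chi (x ∈ pos ps)) (s ()) := by
      intro s
      simp only [Sum.elim_inr, Sum.elim_inl]
      by_cases hs : s () ∈ Set.Ioo c d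
      · rw [chi_pos hs, Set.indicator_of_mem hs, one_mul]
      · rw [chi_neg hs, Set.indicator_of_notMem hs, zero_mul, mul_zero]
    simp only [h2]
    rw [lintegral_unit fun t => (Set.Ioo c d).indicator g t * chi (x ∈ pos ps),
      lintegral_mul_const _ (hg.indicator measurableSet_Ioo), lintegral_indicator measurableSet_Ioo]
  simp only [h1]
  have hm3 : Measurable fun x : ι → ℝ => chi (x ∈ pos ps) := measurable_chi (measurableSet_pos' ps)
  have h3 : ∫⁻ x : ι → ℝ, chi (x ∈ pos ps) = volume (pos ps) := lintegral_chi (measurableSet_pos' ps)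
  rw [lintegral_const_mul _ hm3, h3]

/-- **Two regions in one.** -/
theorem exists_merge (ps qs : List (MvPolynomial ι ℚ)) :
    ∃ (κ : Type) (_ : Fintype κ) (rs : List (MvPolynomial ((ι ⊕ Unit) ⊕ κ) ℚ)), ∀ g : ℝ → ENNReal, Measurable g →
      ∫⁻ z in pos rs, g (z (Sum.inl (Sum.inr ()))) =
        (∫⁻ s in Set.Ioo 0 1, g s) * volume (pos ps) + (∫⁻ s in Set.Ioo 1 2, g s) * volume (pos qs) := by
  obtain ⟨κ, _, rs, h⟩ := (isD_mer ps qs).lintegral
  refine ⟨κ, inferInstance, rs, fun g hg => ?_⟩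
  rw [h (fun w => g (w (Sum.inr ()))) (hg.comp (measurable_pi_apply _)), ← lintegral_slice ps 0 1 hg,
    ← lintegral_slice qs 1 2 hg, ← lintegral_add_left]
  · have h1 : ∀ᵐ w : ι ⊕ Unit → ℝ, w (Sum.inr ()) ≠ 1 := by
      have h2 := ae_ne_zero (ι := ι ⊕ Unit) (p := MvPolynomial.X (Sum.inr ()) - 1) ?_
      · filter_upwards [h2] with w hw h3
        refine hw ?_
        rw [map_sub, MvPolynomial.aeval_X, map_one, h3, sub_self]
      · intro h3
        have h4 := congrArg (MvPolynomial.aeval fun _ => (0 : ℚ)) h3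
        simp at h4
    refine lintegral_congr_ae ?_
    filter_upwards [h1] with w hw
    rw [mer_eq ps qs w hw, mul_add]
  · refine (hg.comp (measurable_pi_apply _)).mul ?_
    exact (measurable_chi (measurableSet_Ioo.preimage (measurable_pi_apply _))).mul
      (measurable_chi ((measurableSet_pos' ps).preimage measurable_inl))

end Q54.KZ
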