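import Pool.Agent.Q54.KZ.Per

/-!
# The indicator function of a union, as the volume of the fibres of a region given by polynomial inequalities
-/

set_option autoImplicit false

namespace Q54.KZ

open MeasureTheory

variable {ι : Type} [Fintype ι]

/-- The region given by polynomial inequalities in the positive orthant. -/
def pos {ι : Type} (ps : List (MvPolynomial ι ℚ)) : Set (ι → ℝ) :=
  {x | (∀ i, 0 < x i) ∧ ∀ p ∈ ps, 0 < (MvPolynomial.aeval x p : ℝ)}

lemma measurableSet_pos' (ps : List (MvPolynomial ι ℚ)) : MeasurableSet (pos ps) :=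
  measurableSet_pos.inter (measurableSet_poly ps)

/-- The function is, almost everywhere in the positive orthant, the volume of the fibres of a region given by polynomial
inequalities in the positive orthant. -/
def IsD (φ : (ι → ℝ) → ENNReal) : Prop :=
  ∃ (κ : Type) (_ : Fintype κ) (ps : List (MvPolynomial (ι ⊕ κ) ℚ)), ∀ᵐ x : ι → ℝ, (∀ i, 0 < x i) →
    φ x = volume {t : κ → ℝ | (Sum.elim x t : ι ⊕ κ → ℝ) ∈ pos ps}

lemma IsD.congr {φ ψ : (ι → ℝ) → ENNReal} (hφ : IsD φ) (h : ∀ᵐ x : ι → ℝ, (∀ i, 0 < x i) → ψ x = φ x) : IsD ψ := by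
  obtain ⟨κ, _, ps, h1⟩ := hφ
  refine ⟨κ, inferInstance, ps, ?_⟩
  filter_upwards [h, h1] with x h2 h3 hx
  rw [h2 hx, h3 hx]

lemma IsD.chi (p : MvPolynomial ι ℚ) : IsD fun x : ι → ℝ => chi (0 < (MvPolynomial.aeval x p : ℝ)) := by
  refine ⟨Empty, inferInstance, [MvPolynomial.rename Sum.inl p], Filter.Eventually.of_forall fun x hx => ?_⟩
  have h1 : ∀ t : Empty → ℝ, (Sum.elim x t : ι ⊕ Empty → ℝ) ∈ pos [MvPolynomial.rename Sum.inl p] ↔
      0 < (MvPolynomial.aeval x p : ℝ) := by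
    intro t
    simp only [pos, Set.mem_ofPred_eq, Sum.forall, Sum.elim_inl, IsEmpty.forall_iff, and_true, List.mem_singleton,
      forall_eq, MvPolynomial.aeval_rename]
    exact ⟨fun h => h.2, fun h => ⟨hx, h⟩⟩
  simp only [h1]
  by_cases h2 : 0 < (MvPolynomial.aeval x p : ℝ)
  · rw [chi_pos h2]
    simp [h2, volume_pi]
  · rw [chi_neg h2]
    simp [h2]

lemma IsD.mul {φ ψ : (ι → ℝ) → ENNReal} (hφ : IsD φ) (hψ : IsD ψ) : IsD fun x => φ x * ψ x := by
  obtain ⟨κ, _, ps, h1⟩ := hφ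
  obtain ⟨κ', _, qs, h2⟩ := hψ
  refine ⟨κ ⊕ κ', inferInstance, ps.map (MvPolynomial.rename (Sum.map id Sum.inl)) ++
    qs.map (MvPolynomial.rename (Sum.map id Sum.inr)), ?_⟩
  filter_upwards [h1, h2] with x h3 h4 hx
  rw [h3 hx, h4 hx, ← volume_sum_prod]
  congr 1
  ext t
  have h5 : ∀ p : MvPolynomial (ι ⊕ κ) ℚ, (MvPolynomial.aeval (Sum.elim x t : ι ⊕ (κ ⊕ κ') → ℝ)
      (MvPolynomial.rename (Sum.map id Sum.inl) p) : ℝ) =
      MvPolynomial.aeval (Sum.elim x (fun j => t (Sum.inl j)) : ι ⊕ κ → ℝ) p := by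
    intro p
    rw [MvPolynomial.aeval_rename]
    congr 2
    funext j
    rcases j with j | j <;> rfl
  have h6 : ∀ p : MvPolynomial (ι ⊕ κ') ℚ, (MvPolynomial.aeval (Sum.elim x t : ι ⊕ (κ ⊕ κ') → ℝ)
      (MvPolynomial.rename (Sum.map id Sum.inr) p) : ℝ) =
      MvPolynomial.aeval (Sum.elim x (fun j => t (Sum.inr j)) : ι ⊕ κ' → ℝ) p := by
    intro p
    rw [MvPolynomial.aeval_rename]
    congr 2
    funext j
    rcases j with j | j <;> rfl
  simp only [pos, Set.mem_ofPred_eq, Sum.forall, Sum.elim_inl, Sum.elim_inr, List.mem_append, or_imp, List.mem_map,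
    forall_exists_index, and_imp, forall_apply_eq_imp_iff₂, forall_and, h5, h6]
  constructor
  · rintro ⟨⟨⟨_, h7⟩, h8⟩, ⟨_, h9⟩, h10⟩
    exact ⟨⟨hx, h7, h9⟩, h8, h10⟩
  · rintro ⟨⟨_, h7, h9⟩, h8, h10⟩
    exact ⟨⟨⟨hx, h7⟩, h8⟩, ⟨hx, h9⟩, h10⟩

lemma IsD.one : IsD fun _ : ι → ℝ => 1 := by
  refine (IsD.chi (1 : MvPolynomial ι ℚ)).congr (Filter.Eventually.of_forall fun x _ => ?_)
  rw [chi_pos (by rw [map_one]; exact one_pos)]

/-- The antiderivative. -/
lemma hasDerivAt_quot {a b : ℝ} (ha : a ≠ 0) (hb : b ≠ 0) (u : ℝ) :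
    HasDerivAt (fun u => u ^ 2 * b ^ 2 / ((1 - u) ^ 2 * a ^ 2 + u ^ 2 * b ^ 2))
      (2 * u * (1 - u) * a ^ 2 * b ^ 2 / ((1 - u) ^ 2 * a ^ 2 + u ^ 2 * b ^ 2) ^ 2) u := by
  have hM : (1 - u) ^ 2 * a ^ 2 + u ^ 2 * b ^ 2 ≠ 0 := by
    by_cases hu : u = 0
    · rw [hu]
      simpa using ha
    · have h1 : 0 < u ^ 2 * b ^ 2 := by positivity
      have h2 : 0 ≤ (1 - u) ^ 2 * a ^ 2 := by positivity
      linarith
  have h1 : HasDerivAt (fun u : ℝ => u ^ 2 * b ^ 2) (2 * u * b ^ 2) u := by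
    have h2 := (hasDerivAt_pow 2 u).mul_const (b ^ 2)
    refine h2.congr_deriv ?_
    norm_num
  have h2 : HasDerivAt (fun u : ℝ => (1 - u) ^ 2 * a ^ 2 + u ^ 2 * b ^ 2) (-2 * (1 - u) * a ^ 2 + 2 * u * b ^ 2) u := by
    have h3 : HasDerivAt (fun u : ℝ => 1 - u) (-1) u := by
      simpa using (hasDerivAt_id u).const_sub 1
    have h4 := (h3.pow 2).mul_const (a ^ 2)
    have h5 := h4.add h1
    refine h5.congr_deriv ?_
    norm_num
  refine (h1.div h2 hM).congr_deriv ?_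
  congr 1
  ring

lemma continuous_quot {a b : ℝ} (ha : a ≠ 0) (hb : b ≠ 0) :
    Continuous fun u : ℝ => 2 * u * (1 - u) * a ^ 2 * b ^ 2 / ((1 - u) ^ 2 * a ^ 2 + u ^ 2 * b ^ 2) ^ 2 := by
  refine Continuous.div (by fun_prop) (by fun_prop) fun u => ?_
  refine pow_ne_zero 2 ?_
  by_cases hu : u = 0
  · rw [hu]
    simpa using ha
  · have h1 : 0 < u ^ 2 * b ^ 2 := by positivity
    have h2 : 0 ≤ (1 - u) ^ 2 * a ^ 2 := by positivity
    linarith

lemma lintegral_Ioo {a b c d : ℝ} (ha : a ≠ 0) (hb : b ≠ 0) (h0 : 0 ≤ c) (hcd : c ≤ d) (h1 : d ≤ 1) :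
    ∫⁻ u in Set.Ioo c d, ENNReal.ofReal (2 * u * (1 - u) * a ^ 2 * b ^ 2 / ((1 - u) ^ 2 * a ^ 2 + u ^ 2 * b ^ 2) ^ 2) =
      ENNReal.ofReal (d ^ 2 * b ^ 2 / ((1 - d) ^ 2 * a ^ 2 + d ^ 2 * b ^ 2) -
        c ^ 2 * b ^ 2 / ((1 - c) ^ 2 * a ^ 2 + c ^ 2 * b ^ 2)) := by
  rw [← intervalIntegral.integral_eq_sub_of_hasDerivAt (fun u _ => hasDerivAt_quot ha hb u)
    ((continuous_quot ha hb).intervalIntegrable _ _), intervalIntegral.integral_of_le hcd,
    integral_Ioc_eq_integral_Ioo, ofReal_integral_eq_lintegral_ofReal]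
  · exact ((continuous_quot ha hb).integrableOn_Icc).mono_set Set.Ioo_subset_Icc_self
  · refine (ae_restrict_iff' measurableSet_Ioo).2 (Filter.Eventually.of_forall fun u hu => ?_)
    have h2 : 0 < u := lt_of_le_of_lt h0 hu.1
    have h3 : 0 < 1 - u := by linarith [hu.2]
    positivity

/-- The density. -/
noncomputable def rho (a b u : ℝ) : ℝ :=
  2 * u * (1 - u) * a ^ 2 * b ^ 2 / ((1 - u) ^ 2 * a ^ 2 + u ^ 2 * b ^ 2) ^ 2

/-- The value: one if both numbers are positive, zero if both are negative, and one half otherwise. -/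
noncomputable def val (a b : ℝ) : ENNReal :=
  if 0 < a then (if 0 < b then 1 else ENNReal.ofReal (1 / 2)) else (if 0 < b then ENNReal.ofReal (1 / 2) else 0)

lemma quot_half {a b c : ℝ} (hb : b ≠ 0) (hc : c ≠ 0) (h : (1 - c) * a = -(c * b)) :
    c ^ 2 * b ^ 2 / ((1 - c) ^ 2 * a ^ 2 + c ^ 2 * b ^ 2) = 1 / 2 := by
  have h1 : (1 - c) ^ 2 * a ^ 2 = c ^ 2 * b ^ 2 := by
    rw [← mul_pow, h]
    ring
  rw [h1]
  field_simp
  norm_num

lemma lintegral_rho {a b : ℝ} (ha : a ≠ 0) (hb : b ≠ 0) :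
    ∫⁻ u in {u : ℝ | 0 < u ∧ u < 1 ∧ 0 < (1 - u) * a + u * b}, ENNReal.ofReal (rho a b u) = val a b := by
  have h00 : (0 : ℝ) ^ 2 * b ^ 2 / ((1 - 0) ^ 2 * a ^ 2 + 0 ^ 2 * b ^ 2) = 0 := by simp
  have h11 : (1 : ℝ) ^ 2 * b ^ 2 / ((1 - 1) ^ 2 * a ^ 2 + 1 ^ 2 * b ^ 2) = 1 := by
    have : b ^ 2 ≠ 0 := pow_ne_zero 2 hb
    simp [this]
  rcases lt_or_gt_of_ne ha with ha' | ha'
  · rcases lt_or_gt_of_ne hb with hb' | hb'
    · have h1 : {u : ℝ | 0 < u ∧ u < 1 ∧ 0 < (1 - u) * a + u * b} = ∅ := by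
        ext u
        simp only [Set.mem_ofPred_eq, Set.mem_empty_iff_false, iff_false, not_and, not_lt]
        intro h2 h3
        nlinarith
      rw [h1, Measure.restrict_empty, lintegral_zero_measure, val, if_neg ha'.not_gt, if_neg hb'.not_gt]
    · have h0 : 0 < b - a := by linarith
      have hc0 : 0 < -a / (b - a) := div_pos (by linarith) h0
      have hc1 : -a / (b - a) < 1 := by rw [div_lt_one h0]; linarith
      have h1 : {u : ℝ | 0 < u ∧ u < 1 ∧ 0 < (1 - u) * a + u * b} = Set.Ioo (-a / (b - a)) 1 := by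
        ext u
        simp only [Set.mem_ofPred_eq, Set.mem_Ioo, div_lt_iff₀ h0]
        constructor
        · rintro ⟨h2, h3, h4⟩
          exact ⟨by linarith, h3⟩
        · rintro ⟨h2, h3⟩
          refine ⟨?_, h3, by linarith⟩
          by_contra h4
          nlinarith
      have h2 : (1 - (-a / (b - a))) * a = -(-a / (b - a) * b) := by
        field_simp
        ring
      have h3 := lintegral_Ioo ha hb hc0.le hc1.le le_rfl
      rw [quot_half hb hc0.ne' h2, h11] at h3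
      rw [h1, val, if_neg ha'.not_gt, if_pos hb']
      refine h3.trans ?_
      norm_num
  · rcases lt_or_gt_of_ne hb with hb' | hb'
    · have h0 : 0 < a - b := by linarith
      have hc0 : 0 < a / (a - b) := div_pos ha' h0
      have hc1 : a / (a - b) < 1 := by rw [div_lt_one h0]; linarith
      have h1 : {u : ℝ | 0 < u ∧ u < 1 ∧ 0 < (1 - u) * a + u * b} = Set.Ioo 0 (a / (a - b)) := by
        ext u
        simp only [Set.mem_ofPred_eq, Set.mem_Ioo, lt_div_iff₀ h0]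
        constructor
        · rintro ⟨h2, h3, h4⟩
          exact ⟨h2, by linarith⟩
        · rintro ⟨h2, h3⟩
          refine ⟨h2, ?_, by linarith⟩
          by_contra h4
          nlinarith
      have h2 : (1 - a / (a - b)) * a = -(a / (a - b) * b) := by
        field_simp
        ring
      have h3 := lintegral_Ioo ha hb le_rfl hc0.le hc1.le
      rw [quot_half hb hc0.ne' h2, h00] at h3
      rw [h1, val, if_pos ha', if_neg hb'.not_gt]
      refine h3.trans ?_
      norm_num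
    · have h1 : {u : ℝ | 0 < u ∧ u < 1 ∧ 0 < (1 - u) * a + u * b} = Set.Ioo 0 1 := by
        ext u
        simp only [Set.mem_ofPred_eq, Set.mem_Ioo]
        constructor
        · rintro ⟨h2, h3, -⟩
          exact ⟨h2, h3⟩
        · rintro ⟨h2, h3⟩
          refine ⟨h2, h3, ?_⟩
          have h4 : 0 < (1 - u) * a := mul_pos (by linarith) ha'
          have h5 : 0 < u * b := mul_pos h2 hb'
          linarith
      have h3 := lintegral_Ioo ha hb le_rfl zero_le_one le_rfl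
      rw [h00, h11] at h3
      rw [h1, val, if_pos ha', if_pos hb']
      refine h3.trans ?_
      norm_num

lemma chi_or {a b : ℝ} (ha : a ≠ 0) (hb : b ≠ 0) : chi (0 < a ∨ 0 < b) = 2 * (val a b * val 1 (-(a * b))) := by
  have h2 : (2 : ENNReal) * ENNReal.ofReal (1 / 2) = 1 := by
    rw [show (2 : ENNReal) = ENNReal.ofReal 2 by norm_num, ← ENNReal.ofReal_mul (by norm_num)]
    norm_num
  rcases lt_or_gt_of_ne ha with ha' | ha'
  · rcases lt_or_gt_of_ne hb with hb' | hb'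
    · rw [chi_neg (by push Not; exact ⟨ha'.le, hb'.le⟩), val, if_neg ha'.not_gt, if_neg hb'.not_gt, zero_mul, mul_zero]
    · rw [chi_pos (Or.inr hb'), val, if_neg ha'.not_gt, if_pos hb', val, if_pos one_pos,
        if_pos (by nlinarith), mul_one, h2]
  · rcases lt_or_gt_of_ne hb with hb' | hb'
    · rw [chi_pos (Or.inl ha'), val, if_pos ha', if_neg hb'.not_gt, val, if_pos one_pos,
        if_pos (by nlinarith), mul_one, h2]
    · rw [chi_pos (Or.inl ha'), val, if_pos ha', if_pos hb', val, if_pos one_pos,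
        if_neg (by nlinarith), one_mul, h2]

end Q54.KZ
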