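import Pool.Agent.Q54.KZ.Reg
import Pool.Agent.Q225.Hol.Zero

/-!
# Regions given by polynomial inequalities, by orthants
-/

set_option autoImplicit false

namespace Q54.KZ

open MeasureTheory

variable {ι : Type} [Fintype ι]

/-- Change of the signs of some coordinates. -/
noncomputable def flip (s : ι → Bool) (x : ι → ℝ) : ι → ℝ := fun i => if s i then x i else -x i

omit [Fintype ι] in
lemma flip_flip (s : ι → Bool) (x : ι → ℝ) : flip s (flip s x) = x := by
  funext i
  cases h : s i <;> simp [flip, h]

lemma measurePreserving_flip (s : ι → Bool) : MeasurePreserving (flip s) := by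
  have h1 := volume_preserving_pi (α' := fun _ : ι => ℝ) (β' := fun _ : ι => ℝ)
    (f := fun i t => if s i then t else -t) fun i => ?_
  · exact h1
  · cases h : s i
    · simpa [h] using Measure.measurePreserving_neg (volume : Measure ℝ)
    · simp only [if_true]
      exact MeasurePreserving.id (volume : Measure ℝ)

lemma null_coord (i : ι) : volume {x : ι → ℝ | x i = 0} = 0 := by
  have h1 := Pool.Agent.Q225.Hol.poly_null (MvPolynomial.X i : MvPolynomial ι ℝ) (MvPolynomial.X_ne_zero i)
  simpa using h1

/-- The volume of a set is the sum over the orthants. -/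
lemma volume_orthants [DecidableEq ι] {A : Set (ι → ℝ)} (hA : MeasurableSet A) :
    volume A = ∑ s : ι → Bool, volume {x : ι → ℝ | (∀ i, 0 < x i) ∧ flip s x ∈ A} := by
  have hm : ∀ s : ι → Bool, MeasurableSet (A ∩ {x | ∀ i, 0 < flip s x i}) := fun s =>
    hA.inter ((measurePreserving_flip s).measurable measurableSet_pos)
  have h1 : ∀ s : ι → Bool, volume {x : ι → ℝ | (∀ i, 0 < x i) ∧ flip s x ∈ A} =
      volume (A ∩ {x | ∀ i, 0 < flip s x i}) := by
    intro s
    rw [← (measurePreserving_flip s).measure_preimage (hm s).nullMeasurableSet]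
    congr 1
    ext x
    simp only [Set.mem_ofPred_eq, Set.mem_preimage, Set.mem_inter_iff, flip_flip]
    exact And.comm
  simp only [h1]
  rw [← measure_biUnion_finset]
  · refine measure_congr ?_
    have h2 : ∀ᵐ x : ι → ℝ, ∀ i, x i ≠ 0 := by
      rw [ae_all_iff]
      intro i
      exact measure_eq_zero_iff_ae_notMem.1 (null_coord i)
    filter_upwards [h2] with x hx
    refine propext ?_
    change x ∈ A ↔ x ∈ ⋃ s ∈ (Finset.univ : Finset (ι → Bool)), A ∩ {x | ∀ i, 0 < flip s x i}
    simp only [Finset.mem_univ, Set.iUnion_true, Set.mem_iUnion, Set.mem_inter_iff, Set.mem_ofPred_eq]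
    constructor
    · intro h
      refine ⟨fun i => decide (0 < x i), h, fun i => ?_⟩
      by_cases h3 : 0 < x i
      · simp [flip, h3]
      · simpa [flip, h3] using lt_of_le_of_ne (not_lt.1 h3) (hx i)
    · rintro ⟨s, h, -⟩
      exact h
  · intro s _ t _ hst
    refine Set.disjoint_left.2 fun x hx hx' => hst ?_
    funext i
    have h3 := hx.2 i
    have h4 := hx'.2 i
    cases hs : s i <;> cases ht : t i
    · rfl
    · simp only [flip, hs, ht, if_true, Bool.false_eq_true, if_false] at h3 h4
      linarith
    · simp only [flip, hs, ht, if_true, Bool.false_eq_true, if_false] at h3 h4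
      linarith
    · rfl
  · exact fun s _ => hm s

/-- Regions given by strict polynomial inequalities. -/
theorem exists_reg (ps : List (MvPolynomial ι ℚ)) :
    ∃ (S : Type) (_ : Fintype S) (n m r : S → ℕ) (T : ∀ s, Fin (r s) → Fin (n s + 1) → Fin (m s + 1) → ℤ),
      volume {x : ι → ℝ | ∀ p ∈ ps, 0 < (MvPolynomial.aeval x p : ℝ)} = ∑ s, volume (reg (T s)) := by
  classical
  choose n m r T h using fun s : ι → Bool => exists_reg_pos (ps.map fun p => MvPolynomial.bind₁
    (fun i => if s i then MvPolynomial.X i else -MvPolynomial.X i) p)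
  refine ⟨ι → Bool, inferInstance, n, m, r, T, ?_⟩
  rw [volume_orthants (measurableSet_poly ps)]
  refine Finset.sum_congr rfl fun s _ => ?_
  rw [← h]
  congr 1
  ext x
  have h1 : ∀ p : MvPolynomial ι ℚ, (MvPolynomial.aeval x (MvPolynomial.bind₁
      (fun i => if s i then MvPolynomial.X i else -MvPolynomial.X i) p) : ℝ) = MvPolynomial.aeval (flip s x) p := by
    intro p
    rw [MvPolynomial.aeval_bind₁]
    congr 2
    funext i
    cases hs : s i <;> simp [flip, hs]
  simp only [Set.mem_ofPred_eq, List.mem_map, forall_exists_index, and_imp, forall_apply_eq_imp_iff₂, h1]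

end Q54.KZ
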