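import Pool.Agent.Q54.KZ.Itg

/-!
# Periods are signed sums of volumes
-/

set_option autoImplicit false

namespace Q54.KZ

open MeasureTheory

variable {ι : Type} [Fintype ι]

lemma ae_ne_zero {p : MvPolynomial ι ℚ} (hp : p ≠ 0) : ∀ᵐ x : ι → ℝ, (MvPolynomial.aeval x p : ℝ) ≠ 0 := by
  have h1 : MvPolynomial.map (algebraMap ℚ ℝ) p ≠ 0 := by
    intro h
    refine hp (MvPolynomial.map_injective (algebraMap ℚ ℝ) (algebraMap ℚ ℝ).injective ?_)
    rw [h, map_zero]
  have h2 := measure_eq_zero_iff_ae_notMem.1 (Pool.Agent.Q225.Hol.poly_null _ h1)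
  filter_upwards [h2] with x hx
  rw [aeval_eq]
  exact hx

/-- A region given by weak inequalities is, up to a null set, given by strict ones. -/
lemma ae_eq_weak {k : ℕ} (p : Fin k → MvPolynomial ι ℚ) :
    ∃ ps : List (MvPolynomial ι ℚ), {x : ι → ℝ | ∀ i, 0 ≤ (MvPolynomial.aeval x (p i) : ℝ)} =ᵐ[volume]
      {x : ι → ℝ | ∀ q ∈ ps, 0 < (MvPolynomial.aeval x q : ℝ)} := by
  classical
  refine ⟨(List.ofFn p).filter fun q => q ≠ 0, ?_⟩
  have h1 : ∀ᵐ x : ι → ℝ, ∀ i, p i ≠ 0 → (MvPolynomial.aeval x (p i) : ℝ) ≠ 0 := by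
    rw [ae_all_iff]
    intro i
    by_cases hi : p i = 0
    · exact Filter.Eventually.of_forall fun x h => absurd hi h
    · filter_upwards [ae_ne_zero hi] with x hx _ using hx
  filter_upwards [h1] with x hx
  refine propext ?_
  change (∀ i, 0 ≤ (MvPolynomial.aeval x (p i) : ℝ)) ↔
    ∀ q ∈ (List.ofFn p).filter fun q => q ≠ 0, 0 < (MvPolynomial.aeval x q : ℝ)
  simp only [List.mem_filter, List.mem_ofFn', Set.mem_range, decide_eq_true_eq, and_imp, forall_exists_index,
    forall_apply_eq_imp_iff]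
  constructor
  · exact fun h i hi => lt_of_le_of_ne (h i) (Ne.symm (hx i hi))
  · intro h i
    by_cases hi : p i = 0
    · rw [hi, map_zero]
    · exact (h i hi).le

/-- The number is an absolutely convergent integral of a rational function over a region given by weak polynomial
inequalities. -/
def IsPer (v : ℝ) : Prop := ∃ (n k : ℕ) (p : Fin k → MvPolynomial (Fin n) ℚ) (P Q : MvPolynomial (Fin n) ℚ),
  IntegrableOn (fun y : Fin n → ℝ => (MvPolynomial.aeval y P / MvPolynomial.aeval y Q : ℝ))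
    {y : Fin n → ℝ | ∀ i, 0 ≤ (MvPolynomial.aeval y (p i) : ℝ)} ∧
  v = ∫ y in {y : Fin n → ℝ | ∀ i, 0 ≤ (MvPolynomial.aeval y (p i) : ℝ)},
    (MvPolynomial.aeval y P / MvPolynomial.aeval y Q : ℝ)

lemma IsPer.mem {v : ℝ} (h : IsPer v) : v ∈ AddSubgroup.closure vols := by
  obtain ⟨n, k, p, P, Q, h1, rfl⟩ := h
  obtain ⟨ps, h2⟩ := ae_eq_weak p
  rw [setIntegral_congr_set h2]
  exact integral_mem ps P Q (h1.congr_set_ae h2.symm)

lemma IsPer.neg {v : ℝ} (h : IsPer v) : IsPer (-v) := by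
  obtain ⟨n, k, p, P, Q, h1, rfl⟩ := h
  have h2 : ∀ x : Fin n → ℝ, -(MvPolynomial.aeval x P / MvPolynomial.aeval x Q : ℝ) =
      MvPolynomial.aeval x (-P) / MvPolynomial.aeval x Q := fun x => by rw [map_neg, neg_div]
  refine ⟨n, k, p, -P, Q, ?_, ?_⟩
  · have h3 := Integrable.neg h1
    exact h3.congr (Filter.Eventually.of_forall fun x => h2 x)
  · rw [← integral_neg]
    exact integral_congr_ae (Filter.Eventually.of_forall fun x => h2 x)

lemma IsPer.zero : IsPer 0 := ⟨0, 0, Fin.elim0, 0, 0, by simp, by simp⟩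

/-- The polynomials of a system of bilinear inequalities. -/
noncomputable def bil {n m : ℕ} (T : Fin (n + 1) → Fin (m + 1) → ℤ) : MvPolynomial (Fin (n + m)) ℚ :=
  ∑ a, ∑ b, MvPolynomial.C (T a b : ℚ) *
    (Fin.cons 1 (fun i => MvPolynomial.X (Fin.castAdd m i)) : Fin (n + 1) → MvPolynomial (Fin (n + m)) ℚ) a *
    (Fin.cons 1 (fun j => MvPolynomial.X (Fin.natAdd n j)) : Fin (m + 1) → MvPolynomial (Fin (n + m)) ℚ) b

lemma aeval_bil {n m : ℕ} (T : Fin (n + 1) → Fin (m + 1) → ℤ) (z : Fin (n + m) → ℝ) :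
    (MvPolynomial.aeval z (bil T) : ℝ) = ∑ a, ∑ b, (T a b : ℝ) *
      (Fin.cons 1 (fun i => z (Fin.castAdd m i)) : Fin (n + 1) → ℝ) a *
      (Fin.cons 1 (fun j => z (Fin.natAdd n j)) : Fin (m + 1) → ℝ) b := by
  rw [bil, map_sum]
  refine Finset.sum_congr rfl fun a _ => ?_
  rw [map_sum]
  refine Finset.sum_congr rfl fun b _ => ?_
  rw [map_mul, map_mul, MvPolynomial.aeval_C]
  have h1 : (MvPolynomial.aeval z ((Fin.cons 1 (fun i => MvPolynomial.X (Fin.castAdd m i)) :
      Fin (n + 1) → MvPolynomial (Fin (n + m)) ℚ) a) : ℝ) =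
      (Fin.cons 1 (fun i => z (Fin.castAdd m i)) : Fin (n + 1) → ℝ) a := by
    refine Fin.cases ?_ (fun i => ?_) a
    · simp
    · simp
  have h2 : (MvPolynomial.aeval z ((Fin.cons 1 (fun j => MvPolynomial.X (Fin.natAdd n j)) :
      Fin (m + 1) → MvPolynomial (Fin (n + m)) ℚ) b) : ℝ) =
      (Fin.cons 1 (fun j => z (Fin.natAdd n j)) : Fin (m + 1) → ℝ) b := by
    refine Fin.cases ?_ (fun i => ?_) b
    · simp
    · simp
  rw [h1, h2]
  simp

lemma volume_append {n m : ℕ} (S : Set ((Fin n → ℝ) × (Fin m → ℝ))) :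
    volume {z : Fin (n + m) → ℝ | ((fun i => z (Fin.castAdd m i)), fun j => z (Fin.natAdd n j)) ∈ S} = volume S := by
  have h1 := volume_reindex (finSumFinEquiv (m := n) (n := m)).symm
    {z : Fin n ⊕ Fin m → ℝ | ((fun i => z (Sum.inl i)), fun j => z (Sum.inr j)) ∈ S}
  have h2 := volume_measurePreserving_sumPiEquivProdPi (fun _ : Fin n ⊕ Fin m => ℝ)
  have h3 := h2.measure_preimage_equiv (f := MeasurableEquiv.sumPiEquivProdPi fun _ : Fin n ⊕ Fin m => ℝ) S
  exact h1.trans h3

lemma isPer_of_mem_vols {v : ℝ} (h : v ∈ vols) : IsPer v := by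
  obtain ⟨n, m, r, T, h1, rfl⟩ := h
  by_cases h2 : ∀ c, bil (T c) ≠ 0
  · have h3 : {y : Fin (n + m) → ℝ | ∀ c, 0 ≤ (MvPolynomial.aeval y (bil (T c)) : ℝ)} =ᵐ[volume]
        {z : Fin (n + m) → ℝ | ((fun i => z (Fin.castAdd m i)), fun j => z (Fin.natAdd n j)) ∈ reg T} := by
      have h4 : ∀ᵐ x : Fin (n + m) → ℝ, ∀ c, (MvPolynomial.aeval x (bil (T c)) : ℝ) ≠ 0 := by
        rw [ae_all_iff]
        exact fun c => ae_ne_zero (h2 c)
      filter_upwards [h4] with x hx
      refine propext ?_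
      change (∀ c, 0 ≤ (MvPolynomial.aeval x (bil (T c)) : ℝ)) ↔ ∀ c, _
      refine forall_congr' fun c => ?_
      rw [← aeval_bil]
      exact ⟨fun h => lt_of_le_of_ne h (Ne.symm (hx c)), fun h => h.le⟩
    have h4 : volume {y : Fin (n + m) → ℝ | ∀ c, 0 ≤ (MvPolynomial.aeval y (bil (T c)) : ℝ)} = volume (reg T) := by
      rw [measure_congr h3, volume_append]
    refine ⟨n + m, r, fun c => bil (T c), 1, 1, ?_, ?_⟩
    · simp only [map_one, div_one]
      refine integrableOn_const ?_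
      rw [h4]
      exact h1
    · simp only [map_one, div_one]
      rw [setIntegral_const, smul_eq_mul, mul_one, Measure.real, h4]
  · push Not at h2
    obtain ⟨c, hc⟩ := h2
    have h3 : volume (reg T) = 0 := by
      rw [← volume_append]
      have h4 : {z : Fin (n + m) → ℝ | ((fun i => z (Fin.castAdd m i)), fun j => z (Fin.natAdd n j)) ∈ reg T} = ∅ := by
        ext z
        simp only [Set.mem_ofPred_eq, Set.mem_empty_iff_false, iff_false]
        intro h
        have h5 := h c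
        rw [← aeval_bil, hc, map_zero] at h5
        exact lt_irrefl _ h5
      rw [h4, measure_empty]
    rw [h3]
    exact IsPer.zero

lemma exists_signed {v : ℝ} (h : v ∈ AddSubgroup.closure vols) :
    ∃ (k : ℕ) (s : Fin k → ℤ) (n m r : Fin k → ℕ) (T : ∀ j : Fin k, Fin (r j) → Fin (n j + 1) → Fin (m j + 1) → ℤ),
      (∀ j, volume (reg (T j)) ≠ ⊤) ∧ v = ∑ j, (s j : ℝ) * (volume (reg (T j))).toReal := by
  have h1 : ∃ l : List (ℤ × ℝ), (∀ u ∈ l, u.2 ∈ vols) ∧ v = (l.map fun u => (u.1 : ℝ) * u.2).sum := by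
    induction h using AddSubgroup.closure_induction with
    | mem x hx => exact ⟨[(1, x)], by simpa using hx, by simp⟩
    | zero => exact ⟨[], by simp, by simp⟩
    | add x y _ _ hx hy =>
      obtain ⟨l, h1, h2⟩ := hx
      obtain ⟨l', h1', h2'⟩ := hy
      refine ⟨l ++ l', fun u hu => ?_, by rw [List.map_append, List.sum_append, h2, h2']⟩
      rcases List.mem_append.1 hu with h | h
      · exact h1 u h
      · exact h1' u h
    | neg x _ hx =>
      obtain ⟨l, h1, h2⟩ := hx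
      refine ⟨l.map fun u => (-u.1, u.2), fun u hu => ?_, ?_⟩
      · obtain ⟨w, hw, rfl⟩ := List.mem_map.1 hu
        exact h1 w hw
      · rw [h2, List.sum_neg, List.map_map, List.map_map]
        congr 2
        funext u
        simp
  obtain ⟨l, h2, h3⟩ := h1
  choose n m r T h4 h5 using fun j : Fin l.length => h2 (l.get j) (List.get_mem l j)
  refine ⟨l.length, fun j => (l.get j).1, n, m, r, T, h4, ?_⟩
  have h6 : ∀ j, ((l.get j).1 : ℝ) * (volume (reg (T j))).toReal = ((l.get j).1 : ℝ) * (l.get j).2 := fun j => by rw [h5 j]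
  rw [h3, Finset.sum_congr rfl fun j _ => h6 j]
  exact (Fin.sum_univ_fun_getElem l fun u => (u.1 : ℝ) * u.2).symm

/-- **The group of the periods is generated by the volumes of the regions given by bilinear inequalities.** -/
theorem mem_iff (v : ℝ) : v ∈ AddSubgroup.closure vols ↔ ∃ l : List ℝ, (∀ u ∈ l, IsPer u) ∧ l.sum = v := by
  constructor
  · intro h
    induction h using AddSubgroup.closure_induction with
    | mem x hx => exact ⟨[x], by simpa using isPer_of_mem_vols hx, by simp⟩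
    | zero => exact ⟨[], by simp, by simp⟩
    | add x y _ _ hx hy =>
      obtain ⟨l, h1, h2⟩ := hx
      obtain ⟨l', h1', h2'⟩ := hy
      refine ⟨l ++ l', fun u hu => ?_, by rw [List.sum_append, h2, h2']⟩
      rcases List.mem_append.1 hu with h | h
      · exact h1 u h
      · exact h1' u h
    | neg x _ hx =>
      obtain ⟨l, h1, h2⟩ := hx
      refine ⟨l.map Neg.neg, fun u hu => ?_, ?_⟩
      · obtain ⟨w, hw, rfl⟩ := List.mem_map.1 hu
        exact (h1 w hw).neg
      · rw [← List.sum_neg, h2]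
  · rintro ⟨l, h1, rfl⟩
    exact AddSubgroup.list_sum_mem _ fun u hu => (h1 u hu).mem

end Q54.KZ
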