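import Pool.Agent.Q54.KZ.Ind

/-!
# The volume of a region given by polynomial inequalities in the positive orthant
-/

set_option autoImplicit false

namespace Q54.KZ

open MeasureTheory

/-- The region in `ℝ ^ n × ℝ ^ m` given by inequalities which are bilinear in `(1, x)` and `(1, y)`, with integer
coefficients. -/
def reg {n m r : ℕ} (T : Fin r → Fin (n + 1) → Fin (m + 1) → ℤ) : Set ((Fin n → ℝ) × (Fin m → ℝ)) :=
  {z | ∀ c, 0 < ∑ a, ∑ b, (T c a b : ℝ) * (Fin.cons 1 z.1 : Fin (n + 1) → ℝ) a * (Fin.cons 1 z.2 : Fin (m + 1) → ℝ) b}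

variable {ι κ : Type} [Fintype ι] [Fintype κ]

/-- Integer coefficients. -/
lemma exists_int (T : Option ι → Option κ → ℚ) : ∃ T' : Option ι → Option κ → ℤ,
    ∀ (x : ι → ℝ) (y : κ → ℝ), 0 < ∑ a, ∑ b, (T a b : ℝ) * ex x a * ex y b ↔
      0 < ∑ a, ∑ b, (T' a b : ℝ) * ex x a * ex y b := by
  let N : ℕ := ∏ a, ∏ b, (T a b).den
  have hN : 0 < N := Finset.prod_pos fun a _ => Finset.prod_pos fun b _ => (T a b).den_pos
  have hd : ∀ a b, (T a b).den ∣ N := fun a b =>
    (Finset.dvd_prod_of_mem (fun b => (T a b).den) (Finset.mem_univ b)).trans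
      (Finset.dvd_prod_of_mem (fun a => ∏ b, (T a b).den) (Finset.mem_univ a))
  choose k hk using hd
  have h1 : ∀ a b, (((T a b).num * (k a b : ℤ) : ℤ) : ℝ) = (N : ℝ) * (T a b : ℝ) := by
    intro a b
    have h2 : (T a b) * (T a b).den = (T a b).num := Rat.mul_den_eq_num (T a b)
    have h3 : (((T a b).num * (k a b : ℤ) : ℤ) : ℚ) = (N : ℚ) * T a b := by
      rw [hk a b]
      push_cast
      rw [← h2]
      ring
    have h4 := congrArg (fun q : ℚ => (q : ℝ)) h3
    push_cast at h4 ⊢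
    exact h4
  refine ⟨fun a b => (T a b).num * (k a b : ℤ), fun x y => ?_⟩
  have h2 : ∑ a, ∑ b, (((T a b).num * (k a b : ℤ) : ℤ) : ℝ) * ex x a * ex y b =
      (N : ℝ) * ∑ a, ∑ b, (T a b : ℝ) * ex x a * ex y b := by
    rw [Finset.mul_sum]
    refine Finset.sum_congr rfl fun a _ => ?_
    rw [Finset.mul_sum]
    refine Finset.sum_congr rfl fun b _ => ?_
    rw [h1]
    ring
  rw [h2]
  have h3 : (0 : ℝ) < N := by exact_mod_cast hN
  exact (mul_pos_iff_of_pos_left h3).symm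

/-- The index of the number one, and of the coordinates. -/
def fo {n : ℕ} (e : ι ≃ Fin n) : Fin (n + 1) → Option ι := Fin.cases none fun i => some (e.symm i)

lemma sum_fo {n : ℕ} (e : ι ≃ Fin n) (g : Option ι → ℝ → ℝ) (x : ι → ℝ) :
    ∑ a, g a (ex x a) = ∑ a, g (fo e a) ((Fin.cons 1 (fun i => x (e.symm i)) : Fin (n + 1) → ℝ) a) := by
  rw [Fintype.sum_option, Fin.sum_univ_succ]
  congr 1
  simp only [ex, fo, Fin.cases_succ, Fin.cons_succ]
  exact (Equiv.sum_comp e.symm fun i => g (some i) (x i)).symm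

lemma IsW.total_fin {φ : (ι → ℝ) → ENNReal} (h : IsW φ) :
    ∃ (n m r : ℕ) (T : Fin r → Fin (n + 1) → Fin (m + 1) → ℤ), ∫⁻ x, φ x = volume (reg T) := by
  obtain ⟨κ, _, Λ, _, T, h1⟩ := h.total
  choose T' hT' using fun l => exists_int (T l)
  let e := Fintype.equivFin ι
  let e' := Fintype.equivFin κ
  let e'' := Fintype.equivFin Λ
  refine ⟨_, _, _, fun c a b => T' (e''.symm c) (fo e a) (fo e' b), ?_⟩
  rw [h1]
  have h2 := volume_preserving_arrowCongr' e (MeasurableEquiv.refl ℝ) (MeasurePreserving.id volume)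
  have h3 := volume_preserving_arrowCongr' e' (MeasurableEquiv.refl ℝ) (MeasurePreserving.id volume)
  have h4 := (h2.prod h3).measure_preimage_equiv (f := (MeasurableEquiv.arrowCongr' e (MeasurableEquiv.refl ℝ)).prodCongr
    (MeasurableEquiv.arrowCongr' e' (MeasurableEquiv.refl ℝ)))
    (reg fun c a b => T' (e''.symm c) (fo e a) (fo e' b))
  rw [Measure.volume_eq_prod, Measure.volume_eq_prod, ← h4]
  congr 1
  ext z
  have h5 : ∀ c, ∑ a, ∑ b, (T' c a b : ℝ) * ex z.1 a * ex z.2 b =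
      ∑ a, ∑ b, (T' c (fo e a) (fo e' b) : ℝ) * (Fin.cons 1 (fun i => z.1 (e.symm i)) : Fin (_ + 1) → ℝ) a *
        (Fin.cons 1 (fun i => z.2 (e'.symm i)) : Fin (_ + 1) → ℝ) b := by
    intro c
    rw [sum_fo e (fun a t => ∑ b, (T' c a b : ℝ) * t * ex z.2 b) z.1]
    refine Finset.sum_congr rfl fun a _ => ?_
    exact sum_fo e' (fun b t => (T' c (fo e a) b : ℝ) * (Fin.cons 1 (fun i => z.1 (e.symm i)) : Fin (_ + 1) → ℝ) a * t) z.2
  simp only [Set.mem_ofPred_eq, hT', h5]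
  exact (Equiv.forall_congr_right (q := fun l => 0 < ∑ a, ∑ b, (T' l (fo e a) (fo e' b) : ℝ) *
    (Fin.cons 1 (fun i => z.1 (e.symm i)) : Fin (_ + 1) → ℝ) a *
        (Fin.cons 1 (fun i => z.2 (e'.symm i)) : Fin (_ + 1) → ℝ) b) e''.symm).symm

omit [Fintype ι] in
lemma aeval_eq (p : MvPolynomial ι ℚ) (x : ι → ℝ) :
    (MvPolynomial.aeval x p : ℝ) = MvPolynomial.eval x (MvPolynomial.map (algebraMap ℚ ℝ) p) := by
  rw [MvPolynomial.eval_map, MvPolynomial.aeval_def]

omit [Fintype ι] in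
lemma continuous_aeval (p : MvPolynomial ι ℚ) : Continuous fun x : ι → ℝ => (MvPolynomial.aeval x p : ℝ) := by
  simp only [aeval_eq]
  exact MvPolynomial.continuous_eval _

lemma measurableSet_poly (ps : List (MvPolynomial ι ℚ)) :
    MeasurableSet {x : ι → ℝ | ∀ p ∈ ps, 0 < (MvPolynomial.aeval x p : ℝ)} := by
  have h1 : {x : ι → ℝ | ∀ p ∈ ps, 0 < (MvPolynomial.aeval x p : ℝ)} =
      ⋂ p : {p // p ∈ ps}, {x : ι → ℝ | 0 < (MvPolynomial.aeval x p.1 : ℝ)} := by
    ext x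
    simp
  rw [h1]
  have : Countable {p // p ∈ ps} := (List.finite_toSet ps).countable.to_subtype
  refine MeasurableSet.iInter fun p => measurableSet_lt measurable_const ?_
  exact (continuous_aeval _).measurable

lemma measurableSet_pos : MeasurableSet {x : ι → ℝ | ∀ i, 0 < x i} := by
  have h1 : {x : ι → ℝ | ∀ i, 0 < x i} = ⋂ i, {x : ι → ℝ | 0 < x i} := by
    ext x
    simp
  rw [h1]
  exact MeasurableSet.iInter fun i => measurableSet_lt measurable_const (by fun_prop)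

/-- **Regions in the positive orthant.** -/
theorem exists_reg_pos (ps : List (MvPolynomial ι ℚ)) :
    ∃ (n m r : ℕ) (T : Fin r → Fin (n + 1) → Fin (m + 1) → ℤ),
      volume {x : ι → ℝ | (∀ i, 0 < x i) ∧ ∀ p ∈ ps, 0 < (MvPolynomial.aeval x p : ℝ)} = volume (reg T) := by
  obtain ⟨n, m, r, T, h⟩ := (isW_list ps).total_fin
  exact ⟨n, m, r, T, by rw [← h]; exact (lintegral_chi (measurableSet_pos.inter (measurableSet_poly ps))).symm⟩

end Q54.KZ
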