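import Pool.Agent.Q54.KZ.Gad

/-!
# The volume of a simplex
-/

set_option autoImplicit false

namespace Q54.KZ

open MeasureTheory

lemma volume_reindex {κ κ' : Type} [Fintype κ] [Fintype κ'] (e : κ ≃ κ') (S : Set (κ' → ℝ)) :
    volume {y : κ → ℝ | (fun j => y (e.symm j)) ∈ S} = volume S := by
  have h1 := volume_preserving_arrowCongr' e (MeasurableEquiv.refl ℝ) (MeasurePreserving.id volume)
  exact h1.measure_preimage_equiv (f := MeasurableEquiv.arrowCongr' e (MeasurableEquiv.refl ℝ)) S

lemma measurableSet_simplex {k : ℕ} (c : Fin k → ℝ) :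
    MeasurableSet {z : ℝ × (Fin k → ℝ) | (∀ j, z.2 j < 0) ∧ 0 < z.1 + ∑ j, c j * z.2 j} := by
  have h1 : {z : ℝ × (Fin k → ℝ) | (∀ j, z.2 j < 0) ∧ 0 < z.1 + ∑ j, c j * z.2 j} =
      (⋂ j, {z : ℝ × (Fin k → ℝ) | z.2 j < 0}) ∩ {z | 0 < z.1 + ∑ j, c j * z.2 j} := by
    ext z
    simp
  rw [h1]
  refine (MeasurableSet.iInter fun j => ?_).inter ?_
  · exact measurableSet_lt (by fun_prop) measurable_const
  · exact measurableSet_lt measurable_const (by fun_prop)

lemma integral_simplex {k : ℕ} {c s : ℝ} (hc : 0 < c) (hs : 0 < s) :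
    ∫ a in (-s / c)..0, (s + c * a) ^ k = s ^ (k + 1) / ((k + 1) * c) := by
  have h1 : ∀ a ∈ Set.uIcc (-s / c) 0, HasDerivAt (fun a => (s + c * a) ^ (k + 1) / ((k + 1) * c)) ((s + c * a) ^ k) a := by
    intro a _
    have h2 : HasDerivAt (fun a => s + c * a) c a := by
      simpa using ((hasDerivAt_id a).const_mul c).const_add s
    have h3 := (h2.pow (k + 1)).div_const ((k + 1) * c)
    refine h3.congr_deriv ?_
    have h4 : (k : ℝ) + 1 ≠ 0 := by positivity
    push_cast
    field_simp
  rw [intervalIntegral.integral_eq_sub_of_hasDerivAt h1 (Continuous.intervalIntegrable (by fun_prop) _ _)]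
  have h5 : s + c * (-s / c) = 0 := by
    field_simp
    ring
  rw [h5, mul_zero, add_zero, zero_pow (Nat.succ_ne_zero k), zero_div, sub_zero]

/-- The volume of the simplex given by `v_j < 0` and `∑ c_j v_j > -s`. -/
theorem volume_simplex (k : ℕ) (c : Fin k → ℝ) (hc : ∀ j, 0 < c j) (s : ℝ) :
    volume {v : Fin k → ℝ | (∀ j, v j < 0) ∧ 0 < s + ∑ j, c j * v j} =
      if 0 < s then ENNReal.ofReal (s ^ k / (k.factorial * ∏ j, c j)) else 0 := by
  induction k generalizing s with
  | zero =>
    by_cases hs : 0 < s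
    · rw [if_pos hs]
      have h1 : {v : Fin 0 → ℝ | (∀ j, v j < 0) ∧ 0 < s + ∑ j, c j * v j} = Set.univ := by
        ext v
        simp [hs]
      rw [h1]
      simp [volume_pi]
    · rw [if_neg hs]
      have h1 : {v : Fin 0 → ℝ | (∀ j, v j < 0) ∧ 0 < s + ∑ j, c j * v j} = ∅ := by
        ext v
        simp [le_of_not_gt hs]
      rw [h1, measure_empty]
  | succ k ih =>
    let c' : Fin k → ℝ := fun j => c j.succ
    have hc' : ∀ j, 0 < c' j := fun j => hc _
    let S : Set (ℝ × (Fin k → ℝ)) := {z | z.1 < 0 ∧ (∀ j, z.2 j < 0) ∧ 0 < (s + c 0 * z.1) + ∑ j, c' j * z.2 j}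
    have hS : MeasurableSet S := by
      have h1 : S = {z : ℝ × (Fin k → ℝ) | z.1 < 0} ∩
          (fun z : ℝ × (Fin k → ℝ) => (s + c 0 * z.1, z.2)) ⁻¹'
            {z : ℝ × (Fin k → ℝ) | (∀ j, z.2 j < 0) ∧ 0 < z.1 + ∑ j, c' j * z.2 j} := rfl
      rw [h1]
      exact (measurableSet_lt measurable_fst measurable_const).inter
        ((measurableSet_simplex c').preimage (by fun_prop))
    have h1 : volume {v : Fin (k + 1) → ℝ | (∀ j, v j < 0) ∧ 0 < s + ∑ j, c j * v j} = volume S := by
      have h2 := (volume_preserving_piFinSuccAbove (fun _ : Fin (k + 1) => ℝ) 0).measure_preimage_equiv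
        (f := MeasurableEquiv.piFinSuccAbove (fun _ : Fin (k + 1) => ℝ) 0) S
      rw [← h2]
      congr 1
      ext v
      simp only [Set.mem_ofPred_eq, Set.mem_preimage, S, Fin.forall_fin_succ, Fin.sum_univ_succ]
      change (v 0 < 0 ∧ ∀ j : Fin k, v j.succ < 0) ∧ 0 < s + (c 0 * v 0 + ∑ j : Fin k, c j.succ * v j.succ) ↔
        v 0 < 0 ∧ (∀ j : Fin k, v j.succ < 0) ∧ 0 < s + c 0 * v 0 + ∑ j : Fin k, c j.succ * v j.succ
      rw [and_assoc, add_assoc]
    rw [h1, Measure.volume_eq_prod, Measure.prod_apply hS]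
    have h3 : ∀ a : ℝ, volume (Prod.mk a ⁻¹' S) = (Set.Ioo (-s / c 0) 0).indicator
        (fun a => ENNReal.ofReal ((s + c 0 * a) ^ k / (k.factorial * ∏ j, c' j))) a := by
      intro a
      have h0 := hc 0
      by_cases ha : a < 0
      · have h4 : Prod.mk a ⁻¹' S = {v : Fin k → ℝ | (∀ j, v j < 0) ∧ 0 < (s + c 0 * a) + ∑ j, c' j * v j} := by
          ext v
          simp [S, ha]
        rw [h4, ih c' hc']
        by_cases hs : 0 < s + c 0 * a
        · rw [if_pos hs, Set.indicator_of_mem]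
          refine ⟨?_, ha⟩
          rw [div_lt_iff₀ h0]
          linarith
        · rw [if_neg hs, Set.indicator_of_notMem]
          rintro ⟨h5, -⟩
          rw [div_lt_iff₀ h0] at h5
          exact hs (by linarith)
      · have h4 : Prod.mk a ⁻¹' S = ∅ := by
          ext v
          simp [S, ha]
        rw [h4, measure_empty, Set.indicator_of_notMem]
        exact fun h5 => ha h5.2
    simp only [h3]
    rw [lintegral_indicator measurableSet_Ioo]
    by_cases hs : 0 < s
    · rw [if_pos hs]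
      have h0 := hc 0
      have hp : 0 < ∏ j, c' j := Finset.prod_pos fun j _ => hc' j
      have h6 : -s / c 0 ≤ 0 := by
        rw [div_le_iff₀ h0]
        linarith
      have h7 : ∀ a ∈ Set.Ioo (-s / c 0) 0, 0 ≤ (s + c 0 * a) ^ k / (k.factorial * ∏ j, c' j) := by
        intro a ha
        have h8 : 0 < s + c 0 * a := by
          have h9 := ha.1
          rw [div_lt_iff₀ h0] at h9
          linarith
        positivity
      have h10 : IntegrableOn (fun a => (s + c 0 * a) ^ k / (k.factorial * ∏ j, c' j)) (Set.Ioo (-s / c 0) 0) :=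
        (Continuous.integrableOn_Icc (by fun_prop)).mono_set Set.Ioo_subset_Icc_self
      rw [← ofReal_integral_eq_lintegral_ofReal h10
        ((ae_restrict_iff' measurableSet_Ioo).2 (Filter.Eventually.of_forall h7))]
      congr 1
      rw [← integral_Ioc_eq_integral_Ioo, ← intervalIntegral.integral_of_le h6, intervalIntegral.integral_div,
        integral_simplex h0 hs, Fin.prod_univ_succ, Nat.factorial_succ]
      have h11 : (k : ℝ) + 1 ≠ 0 := by positivity
      have h12 : (k.factorial : ℝ) ≠ 0 := by positivity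
      have h13 : ∏ j, c' j ≠ 0 := hp.ne'
      have h14 : c 0 ≠ 0 := h0.ne'
      push_cast
      change s ^ (k + 1) / ((k + 1) * c 0) / (k.factorial * ∏ j, c' j) =
        s ^ (k + 1) / ((k + 1) * k.factorial * (c 0 * ∏ j, c' j))
      field_simp
    · rw [if_neg hs]
      have h6 : Set.Ioo (-s / c 0) 0 = ∅ := by
        rw [Set.Ioo_eq_empty_iff, not_lt]
        have h0 := hc 0
        exact div_nonneg (by linarith) h0.le
      rw [h6]
      simp

/-- The volume of a simplex. -/
theorem volume_simplex' {κ : Type} [Fintype κ] (c : κ → ℝ) (hc : ∀ j, 0 < c j) (s : ℝ) :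
    volume {v : κ → ℝ | (∀ j, v j < 0) ∧ 0 < s + ∑ j, c j * v j} =
      if 0 < s then ENNReal.ofReal (s ^ Fintype.card κ / ((Fintype.card κ).factorial * ∏ j, c j)) else 0 := by
  let e := Fintype.equivFin κ
  have h1 := volume_simplex (Fintype.card κ) (fun j => c (e.symm j)) (fun j => hc _) s
  rw [e.symm.prod_comp c] at h1
  rw [← h1, ← volume_reindex e]
  congr 1
  ext v
  simp only [Set.mem_ofPred_eq]
  have h2 : ∑ j, c (e.symm j) * v (e.symm j) = ∑ j, c j * v j := e.symm.sum_comp fun j => c j * v j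
  rw [h2]
  refine and_congr_left fun _ => ⟨fun h j => h _, fun h j => ?_⟩
  have h3 := h (e j)
  rwa [e.symm_apply_apply] at h3

end Q54.KZ
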