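import Pool.Agent.Q54.KZ.Mmt

/-!
# Integrals over finite unions
-/

set_option autoImplicit false

namespace Q54.KZ

open MeasureTheory

variable {ι : Type} [Fintype ι]

/-- The union of the regions given by lists of polynomials. -/
def uni {ι : Type} (L : List (List (MvPolynomial ι ℚ))) : Set (ι → ℝ) :=
  {x | ∃ ps ∈ L, ∀ p ∈ ps, 0 < (MvPolynomial.aeval x p : ℝ)}

lemma measurableSet_uni (L : List (List (MvPolynomial ι ℚ))) : MeasurableSet (uni L) := by
  induction L with
  | nil =>
    have h1 : uni ([] : List (List (MvPolynomial ι ℚ))) = ∅ := by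
      ext x
      simp [uni]
    rw [h1]
    exact MeasurableSet.empty
  | cons ps L ih =>
    have h1 : uni (ps :: L) = {x : ι → ℝ | ∀ p ∈ ps, 0 < (MvPolynomial.aeval x p : ℝ)} ∪ uni L := by
      ext x
      simp [uni]
    rw [h1]
    exact (measurableSet_poly ps).union ih

lemma integral_uni_mem (k : ℕ) : ∀ (L : List (List (MvPolynomial ι ℚ))), L.length = k → ∀ P Q : MvPolynomial ι ℚ,
    IntegrableOn (fun x : ι → ℝ => (MvPolynomial.aeval x P / MvPolynomial.aeval x Q : ℝ)) (uni L) →
    ∫ x in uni L, (MvPolynomial.aeval x P / MvPolynomial.aeval x Q : ℝ) ∈ AddSubgroup.closure vols := by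
  induction k with
  | zero =>
    intro L hL P Q _
    rw [List.length_eq_zero_iff] at hL
    subst hL
    have h1 : uni ([] : List (List (MvPolynomial ι ℚ))) = ∅ := by
      ext x
      simp [uni]
    rw [h1, Measure.restrict_empty, integral_zero_measure]
    exact AddSubgroup.zero_mem _
  | succ k ih =>
    intro L hL P Q hint
    rcases L with _ | ⟨ps, L⟩
    · simp at hL
    simp only [List.length_cons, add_left_inj] at hL
    let B : Set (ι → ℝ) := {x : ι → ℝ | ∀ p ∈ ps, 0 < (MvPolynomial.aeval x p : ℝ)}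
    have h1 : uni (ps :: L) = B ∪ uni L := by
      ext x
      simp [uni, B]
    have h2 : uni L ∩ B = uni (L.map fun qs => qs ++ ps) := by
      ext x
      simp only [uni, B, Set.mem_inter_iff, Set.mem_ofPred_eq, List.mem_map]
      constructor
      · rintro ⟨⟨qs, h3, h4⟩, h5⟩
        refine ⟨qs ++ ps, ⟨qs, h3, rfl⟩, fun p hp => ?_⟩
        rcases List.mem_append.1 hp with h | h
        · exact h4 p h
        · exact h5 p h
      · rintro ⟨_, ⟨qs, h3, rfl⟩, h4⟩
        exact ⟨⟨qs, h3, fun p hp => h4 p (List.mem_append_left _ hp)⟩, fun p hp => h4 p (List.mem_append_right _ hp)⟩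
    have hB : MeasurableSet B := measurableSet_poly ps
    rw [h1] at hint ⊢
    have hi1 := hint.mono_set (Set.subset_union_left : B ⊆ B ∪ uni L)
    have hi2 := hint.mono_set (Set.subset_union_right : uni L ⊆ B ∪ uni L)
    have hi3 := hi2.mono_set (Set.inter_subset_left : uni L ∩ B ⊆ uni L)
    have h3 := integral_inter_add_sdiff hB hi2
    have h4 : B ∪ uni L = B ∪ (uni L \ B) := by
      rw [Set.union_sdiff_self]
    have h5 := setIntegral_union Set.disjoint_sdiff_right ((measurableSet_uni L).diff hB) hi1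
      (hi2.mono_set Set.sdiff_subset)
    rw [h4, h5]
    have h6 : ∫ x in uni L \ B, (MvPolynomial.aeval x P / MvPolynomial.aeval x Q : ℝ) =
        (∫ x in uni L, (MvPolynomial.aeval x P / MvPolynomial.aeval x Q : ℝ)) -
          ∫ x in uni L ∩ B, (MvPolynomial.aeval x P / MvPolynomial.aeval x Q : ℝ) := by
      rw [← h3]
      ring
    rw [h6]
    refine AddSubgroup.add_mem _ (integral_mem ps P Q hi1) (AddSubgroup.sub_mem _ (ih L hL P Q hi2) ?_)
    rw [h2] at hi3 ⊢
    exact ih _ (by rw [List.length_map, hL]) P Q hi3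

/-- The integral of a coordinate over a region given by bilinear inequalities. -/
lemma integral_coord {n m r : ℕ} (T : Fin r → Fin (n + 1 + 1) → Fin (m + 1) → ℤ) :
    (IntegrableOn (fun z : (Fin (n + 1) → ℝ) × (Fin m → ℝ) => z.1 0) (reg T) ↔
      IntegrableOn (fun z : Fin (n + 1 + m) → ℝ => z (Fin.castAdd m 0))
        {z | ∀ c, 0 < (MvPolynomial.aeval z (bil (T c)) : ℝ)}) ∧
    ∫ z in {z : Fin (n + 1 + m) → ℝ | ∀ c, 0 < (MvPolynomial.aeval z (bil (T c)) : ℝ)}, z (Fin.castAdd m 0) =
      ∫ z in reg T, z.1 0 := by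
  have h1 := volume_preserving_arrowCongr' (finSumFinEquiv (m := n + 1) (n := m)).symm (MeasurableEquiv.refl ℝ)
    (MeasurePreserving.id volume)
  have h2 := volume_measurePreserving_sumPiEquivProdPi (fun _ : Fin (n + 1) ⊕ Fin m => ℝ)
  have h3 := h2.comp h1
  let E := (MeasurableEquiv.arrowCongr' (finSumFinEquiv (m := n + 1) (n := m)).symm (MeasurableEquiv.refl ℝ)).trans
    (MeasurableEquiv.sumPiEquivProdPi fun _ : Fin (n + 1) ⊕ Fin m => ℝ)
  have h4 : MeasurePreserving E := h3
  have h5 : E ⁻¹' reg T = {z | ∀ c, 0 < (MvPolynomial.aeval z (bil (T c)) : ℝ)} := by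
    ext z
    simp only [Set.mem_preimage, Set.mem_ofPred_eq, aeval_bil]
    rfl
  constructor
  · have h6 := h4.integrableOn_comp_preimage E.measurableEmbedding (f := fun z => z.1 0) (s := reg T)
    rw [h5] at h6
    exact h6.symm
  · have h6 := h4.setIntegral_preimage_emb E.measurableEmbedding (fun z => z.1 0) (reg T)
    rw [h5] at h6
    exact h6

end Q54.KZ
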