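import Pool.Agent.Q54.KZ.Mrg

/-!
# Unions, and the sum of two volumes
-/

set_option autoImplicit false

namespace Q54.KZ

open MeasureTheory

variable {ι : Type} [Fintype ι]

lemma lintegral_unit (f : ℝ → ENNReal) : ∫⁻ y : Unit → ℝ, f (y ()) = ∫⁻ t, f t :=
  (volume_preserving_funUnique Unit ℝ).lintegral_comp_emb (MeasurableEquiv.measurableEmbedding _) f

lemma IsD.two : IsD fun _ : ι → ℝ => 2 := by
  refine ⟨Unit, inferInstance, [2 - MvPolynomial.X (Sum.inr ())], Filter.Eventually.of_forall fun x hx => ?_⟩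
  have h1 : {t : Unit → ℝ | (Sum.elim x t : ι ⊕ Unit → ℝ) ∈ pos [2 - MvPolynomial.X (Sum.inr ())]} =
      {t : Unit → ℝ | t () ∈ Set.Ioo (0 : ℝ) 2} := by
    ext t
    simp only [pos, Set.mem_ofPred_eq, Sum.forall, Sum.elim_inl, Sum.elim_inr, List.mem_singleton,
      forall_eq, map_sub, MvPolynomial.aeval_X, map_ofNat, Set.mem_Ioo, sub_pos]
    exact ⟨fun h => ⟨h.1.2 (), h.2⟩, fun h => ⟨⟨hx, fun _ => h.1⟩, h.2⟩⟩
  rw [h1, volume_unit, Real.volume_Ioo]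
  norm_num

lemma IsD.val {A B : MvPolynomial ι ℚ} (hA : A ≠ 0) (hB : B ≠ 0) :
    IsD fun x : ι → ℝ => val (MvPolynomial.aeval x A) (MvPolynomial.aeval x B) := by
  let U : MvPolynomial (ι ⊕ (Unit ⊕ Unit)) ℚ := MvPolynomial.X (Sum.inr (Sum.inl ()))
  let V : MvPolynomial (ι ⊕ (Unit ⊕ Unit)) ℚ := MvPolynomial.X (Sum.inr (Sum.inr ()))
  let A' : MvPolynomial (ι ⊕ (Unit ⊕ Unit)) ℚ := MvPolynomial.rename Sum.inl A
  let B' : MvPolynomial (ι ⊕ (Unit ⊕ Unit)) ℚ := MvPolynomial.rename Sum.inl B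
  refine ⟨Unit ⊕ Unit, inferInstance, [1 - U, (1 - U) * A' + U * B',
    2 * U * (1 - U) * A' ^ 2 * B' ^ 2 - V * ((1 - U) ^ 2 * A' ^ 2 + U ^ 2 * B' ^ 2) ^ 2], ?_⟩
  filter_upwards [ae_ne_zero hA, ae_ne_zero hB] with x h1 h2 hx
  let a : ℝ := MvPolynomial.aeval x A
  let b : ℝ := MvPolynomial.aeval x B
  have hM : ∀ u : ℝ, 0 < ((1 - u) ^ 2 * a ^ 2 + u ^ 2 * b ^ 2) ^ 2 := by
    intro u
    have h3 : (1 - u) ^ 2 * a ^ 2 + u ^ 2 * b ^ 2 ≠ 0 := by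
      by_cases hu : u = 0
      · rw [hu]
        simpa using h1
      · have h1 : 0 < u ^ 2 * b ^ 2 := by positivity
        have h2 : 0 ≤ (1 - u) ^ 2 * a ^ 2 := by positivity
        linarith
    positivity
  have h3 : ∀ t : Unit ⊕ Unit → ℝ, (Sum.elim x t : ι ⊕ (Unit ⊕ Unit) → ℝ) ∈ pos [1 - U, (1 - U) * A' + U * B',
      2 * U * (1 - U) * A' ^ 2 * B' ^ 2 - V * ((1 - U) ^ 2 * A' ^ 2 + U ^ 2 * B' ^ 2) ^ 2] ↔
      (t (Sum.inl ()) ∈ {u : ℝ | 0 < u ∧ u < 1 ∧ 0 < (1 - u) * a + u * b}) ∧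
        t (Sum.inr ()) ∈ Set.Ioo 0 (rho a b (t (Sum.inl ()))) := by
    intro t
    have h4 : ∀ p : MvPolynomial ι ℚ, (MvPolynomial.aeval (Sum.elim x t : ι ⊕ (Unit ⊕ Unit) → ℝ)
        (MvPolynomial.rename Sum.inl p) : ℝ) = MvPolynomial.aeval x p := by
      intro p
      rw [MvPolynomial.aeval_rename]
      rfl
    simp only [pos, Set.mem_ofPred_eq, Sum.forall, Sum.elim_inl, Sum.elim_inr, List.mem_cons, List.not_mem_nil,
      or_false, forall_eq_or_imp, forall_eq, map_sub, map_add, map_mul, map_pow, map_ofNat, map_one,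
      MvPolynomial.aeval_X, h4, U, V, A', B', sub_pos, Set.mem_Ioo, rho, lt_div_iff₀ (hM _)]
    constructor
    · rintro ⟨⟨-, h5, h6⟩, h7, h8, h9⟩
      exact ⟨⟨h5 (), h7, h8⟩, h6 (), h9⟩
    · rintro ⟨⟨h5, h7, h8⟩, h6, h9⟩
      exact ⟨⟨hx, fun _ => h5, fun _ => h6⟩, h7, h8, h9⟩
  have hm : MeasurableSet {t : Unit ⊕ Unit → ℝ | (Sum.elim x t : ι ⊕ (Unit ⊕ Unit) → ℝ) ∈ pos [1 - U, (1 - U) * A' + U * B',
      2 * U * (1 - U) * A' ^ 2 * B' ^ 2 - V * ((1 - U) ^ 2 * A' ^ 2 + U ^ 2 * B' ^ 2) ^ 2]} :=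
    (measurableSet_pos' _).preimage (measurable_elim measurable_const measurable_id)
  have hm1 : Measurable fun u : ℝ => (1 - u) * a + u * b := by fun_prop
  have hm' : MeasurableSet {u : ℝ | 0 < u ∧ u < 1 ∧ 0 < (1 - u) * a + u * b} :=
    measurableSet_Ioi.inter (measurableSet_Iio.inter (measurableSet_lt measurable_const hm1))
  rw [← lintegral_chi hm, lintegral_sum (measurable_chi hm)]
  have h5 : ∀ u : Unit → ℝ, (∫⁻ v : Unit → ℝ, Q54.KZ.chi ((Sum.elim x (Sum.elim u v : Unit ⊕ Unit → ℝ) :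
      ι ⊕ (Unit ⊕ Unit) → ℝ) ∈ pos [1 - U, (1 - U) * A' + U * B',
      2 * U * (1 - U) * A' ^ 2 * B' ^ 2 - V * ((1 - U) ^ 2 * A' ^ 2 + U ^ 2 * B' ^ 2) ^ 2])) =
      {u : ℝ | 0 < u ∧ u < 1 ∧ 0 < (1 - u) * a + u * b}.indicator (fun u => ENNReal.ofReal (rho a b u)) (u ()) := by
    intro u
    by_cases hu : u () ∈ {u : ℝ | 0 < u ∧ u < 1 ∧ 0 < (1 - u) * a + u * b}
    · rw [Set.indicator_of_mem hu]
      have h6 : ∀ v : Unit → ℝ, (Sum.elim x (Sum.elim u v : Unit ⊕ Unit → ℝ) :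
        ι ⊕ (Unit ⊕ Unit) → ℝ) ∈ pos [1 - U, (1 - U) * A' + U * B',
        2 * U * (1 - U) * A' ^ 2 * B' ^ 2 - V * ((1 - U) ^ 2 * A' ^ 2 + U ^ 2 * B' ^ 2) ^ 2] ↔
          v () ∈ Set.Ioo 0 (rho a b (u ())) := fun v => (h3 _).trans ⟨fun h => h.2, fun h => ⟨hu, h⟩⟩
      simp only [h6]
      rw [lintegral_chi (measurableSet_Ioo.preimage (measurable_pi_apply ())), volume_unit, Real.volume_Ioo, sub_zero]
    · rw [Set.indicator_of_notMem hu]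
      have h6 : ∀ v : Unit → ℝ, Q54.KZ.chi ((Sum.elim x (Sum.elim u v : Unit ⊕ Unit → ℝ) :
        ι ⊕ (Unit ⊕ Unit) → ℝ) ∈ pos [1 - U, (1 - U) * A' + U * B',
        2 * U * (1 - U) * A' ^ 2 * B' ^ 2 - V * ((1 - U) ^ 2 * A' ^ 2 + U ^ 2 * B' ^ 2) ^ 2]) = 0 := fun v =>
        chi_neg fun h => hu ((h3 _).1 h).1
      simp only [h6, lintegral_zero]
  simp only [h5]
  rw [lintegral_unit fun t => {u : ℝ | 0 < u ∧ u < 1 ∧ 0 < (1 - u) * a + u * b}.indicator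
    (fun u => ENNReal.ofReal (rho a b u)) t, lintegral_indicator hm', lintegral_rho h1 h2]

/-- **The indicator function of a union.** -/
theorem IsD.or (A B : MvPolynomial ι ℚ) :
    IsD fun x : ι → ℝ => Q54.KZ.chi (0 < (MvPolynomial.aeval x A : ℝ) ∨ 0 < (MvPolynomial.aeval x B : ℝ)) := by
  by_cases hA : A = 0
  · refine (IsD.chi B).congr (Filter.Eventually.of_forall fun x _ => ?_)
    rw [hA, map_zero]
    simp
  by_cases hB : B = 0
  · refine (IsD.chi A).congr (Filter.Eventually.of_forall fun x _ => ?_)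
    rw [hB, map_zero]
    simp
  have hAB : -(A * B) ≠ 0 := neg_ne_zero.2 (mul_ne_zero hA hB)
  refine (IsD.two.mul ((IsD.val hA hB).mul (IsD.val (one_ne_zero (α := MvPolynomial ι ℚ)) hAB))).congr ?_
  filter_upwards [ae_ne_zero hA, ae_ne_zero hB] with x h1 h2 _
  rw [chi_or h1 h2, map_one, map_neg, map_mul]

end Q54.KZ
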